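import Pool.Agent.H91.AVS.Plc

/-!
# The places of `F(t)` with their residue maps (board avs, used for WUW)
-/

set_option autoImplicit false

namespace Pool.AVS.WUW

open Polynomial Matrix Pool.AVR Pool.AVS

variable {F : Type} [Field F]

/-- Reduction modulo `P` of a rational function regular at `P`. -/
noncomputable def rP (P : F[X]) [Fact (Irreducible P)] (x : RatFunc F) : AdjoinRoot P :=
  AdjoinRoot.mk P x.num / AdjoinRoot.mk P x.denom

theorem rP_poly (P : F[X]) [Fact (Irreducible P)] (p : F[X]) :
    rP P (algebraMap F[X] (RatFunc F) p) = AdjoinRoot.mk P p := by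
  unfold rP
  rw [RatFunc.num_algebraMap, RatFunc.denom_algebraMap, map_one, div_one]

theorem mem_IP_of_div (P : F[X]) {a b : F[X]} (hb : ¬ P ∣ b) :
    algebraMap F[X] (RatFunc F) a / algebraMap F[X] (RatFunc F) b ∈ IP P := by
  show ¬ P ∣ _
  intro h
  exact hb (h.trans (RatFunc.denom_div_dvd a b))

theorem alg_num (x : RatFunc F) : algebraMap F[X] (RatFunc F) x.num =
    x * algebraMap F[X] (RatFunc F) x.denom := by
  have hd0 : algebraMap F[X] (RatFunc F) x.denom ≠ 0 := by
    simpa using x.denom_ne_zero
  rw [← div_eq_iff hd0]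
  exact RatFunc.num_div_denom x

theorem num_dvd_iff (P : F[X]) (hP : Irreducible P) {x : RatFunc F} (hx : x ∈ IP P) :
    P ∣ x.num ↔ x / algebraMap F[X] (RatFunc F) P ∈ IP P := by
  have hP0 : algebraMap F[X] (RatFunc F) P ≠ 0 := by
    simpa using hP.ne_zero
  have hd0 : algebraMap F[X] (RatFunc F) x.denom ≠ 0 := by
    simpa using x.denom_ne_zero
  have hx1 : x = algebraMap F[X] (RatFunc F) x.num / algebraMap F[X] (RatFunc F) x.denom :=
    (RatFunc.num_div_denom x).symm
  constructor
  · rintro ⟨r, hr⟩
    have : x / algebraMap F[X] (RatFunc F) P =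
        algebraMap F[X] (RatFunc F) r / algebraMap F[X] (RatFunc F) x.denom := by
      conv_lhs => rw [hx1, hr, map_mul]
      field_simp
    rw [this]
    exact mem_IP_of_div P hx
  · intro h
    set y := x / algebraMap F[X] (RatFunc F) P with hy
    have hyd : algebraMap F[X] (RatFunc F) y.denom ≠ 0 := by
      simpa using y.denom_ne_zero
    have hy1 : y = algebraMap F[X] (RatFunc F) y.num / algebraMap F[X] (RatFunc F) y.denom :=
      (RatFunc.num_div_denom y).symm
    have hxy : x = y * algebraMap F[X] (RatFunc F) P := by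
      rw [hy]; field_simp
    have e1 : algebraMap F[X] (RatFunc F) (x.num * y.denom) =
        algebraMap F[X] (RatFunc F) (P * (y.num * x.denom)) := by
      rw [map_mul, map_mul, map_mul]
      rw [alg_num x, alg_num y, hxy]
      ring
    have e4 := RatFunc.algebraMap_injective F e1
    have h5 : P ∣ x.num * y.denom := ⟨_, e4⟩
    exact (hP.prime.dvd_or_dvd h5).resolve_right h

theorem plcP (P : F[X]) [hF : Fact (Irreducible P)] :
    Plc (IP P) (algebraMap F[X] (RatFunc F) P) (rP P) := by
  have hP := hF.out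
  have hd : ∀ x ∈ IP P, AdjoinRoot.mk P x.denom ≠ 0 := by
    intro x hx h
    exact hx (AdjoinRoot.mk_eq_zero.1 h)
  have hadd : ∀ x ∈ IP P, ∀ y ∈ IP P, x + y ∈ IP P := by
    intro x hx y hy h
    rcases hP.prime.dvd_or_dvd (h.trans (RatFunc.denom_add_dvd x y)) with h1 | h1
    · exact hx h1
    · exact hy h1
  have hmul : ∀ x ∈ IP P, ∀ y ∈ IP P, x * y ∈ IP P := by
    intro x hx y hy h
    rcases hP.prime.dvd_or_dvd (h.trans (RatFunc.denom_mul_dvd x y)) with h1 | h1
    · exact hx h1
    · exact hy h1
  have hpoly : ∀ p : F[X], algebraMap F[X] (RatFunc F) p ∈ IP P := by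
    intro p h
    rw [RatFunc.denom_algebraMap] at h
    exact hP.not_isUnit (isUnit_of_dvd_one h)
  refine ⟨?_, hadd, hmul, ?_, ?_, ?_, ?_, ?_, ?_, ?_⟩
  · have := hpoly 1
    rwa [map_one] at this
  · intro x hx
    have := hmul _ (hpoly (-1)) _ hx
    simpa using this
  · have := rP_poly P 1
    rwa [map_one, map_one] at this
  · intro x hx y hy
    unfold rP
    have h1 := hd x hx
    have h2 := hd y hy
    have h3 := hd (x + y) (hadd x hx y hy)
    have h4 := congrArg (AdjoinRoot.mk P) (RatFunc.num_denom_add x y)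
    simp only [map_mul, map_add] at h4
    field_simp
    linear_combination h4
  · intro x hx y hy
    unfold rP
    have h1 := hd x hx
    have h2 := hd y hy
    have h3 := hd (x * y) (hmul x hx y hy)
    have h4 := congrArg (AdjoinRoot.mk P) (RatFunc.num_denom_mul x y)
    simp only [map_mul] at h4
    field_simp
    linear_combination h4
  · intro x hx
    unfold rP
    rw [div_eq_zero_iff, or_iff_left (hd x hx), AdjoinRoot.mk_eq_zero]
    exact num_dvd_iff P hP hx
  · intro x hx h
    rw [← num_dvd_iff P hP hx] at h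
    have hx0 : x ≠ 0 := by
      rintro rfl
      exact h (by simp)
    intro h1
    exact h (h1.trans (RatFunc.denom_inv_dvd hx0))
  · intro c
    obtain ⟨p, rfl⟩ := AdjoinRoot.mk_surjective c
    exact ⟨_, hpoly p, rP_poly P p⟩

/-- The value at infinity of a rational function regular at infinity. -/
noncomputable def rI (x : RatFunc F) : AdjoinRoot (X : F[X]) :=
  AdjoinRoot.of X (x.num.coeff x.denom.natDegree)

theorem mem_Iinf {x : RatFunc F} : x ∈ Iinf F ↔ x.num.natDegree ≤ x.denom.natDegree := by
  show x.intDegree ≤ 0 ↔ _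
  unfold RatFunc.intDegree
  omega

instance : Fact (Irreducible (X : F[X])) := ⟨irreducible_X⟩

theorem mkX (p : F[X]) : AdjoinRoot.mk (X : F[X]) p = AdjoinRoot.of X (p.coeff 0) := by
  rw [← AdjoinRoot.mk_C, AdjoinRoot.mk_eq_mk, X_dvd_iff]
  simp

theorem ofX_inj : Function.Injective (AdjoinRoot.of (X : F[X])) :=
  (AdjoinRoot.of (X : F[X])).injective

theorem plcI : Plc (Iinf F) (RatFunc.X)⁻¹ (rI (F := F)) := by
  have hadd : ∀ x ∈ Iinf F, ∀ y ∈ Iinf F, x + y ∈ Iinf F :=
    fun x hx y hy => (OInf F).add_mem hx hy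
  have hmul : ∀ x ∈ Iinf F, ∀ y ∈ Iinf F, x * y ∈ Iinf F :=
    fun x hx y hy => (OInf F).mul_mem hx hy
  have hX0 : (RatFunc.X : RatFunc F) ≠ 0 := RatFunc.X_ne_zero
  have hmon : ∀ x : RatFunc F, x.denom.coeff x.denom.natDegree = 1 := fun x =>
    (RatFunc.monic_denom x).coeff_natDegree
  have hkey : ∀ x y : RatFunc F, (x.denom * y.denom).coeff (x.denom.natDegree +
      y.denom.natDegree) = 1 := by
    intro x y
    rw [coeff_mul_add_eq_of_natDegree_le le_rfl le_rfl, hmon, hmon, one_mul]
  have hdd : ∀ x y : RatFunc F, (x.denom * y.denom).natDegree ≤ x.denom.natDegree +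
      y.denom.natDegree := fun x y => natDegree_mul_le
  refine ⟨(OInf F).one_mem, hadd, hmul, fun x hx => (OInf F).neg_mem hx, ?_, ?_, ?_, ?_, ?_, ?_⟩
  · unfold rI; simp
  · intro x hx y hy
    have hxy := hadd x hx y hy
    unfold rI
    rw [← map_add]
    congr 1
    rw [mem_Iinf] at hx hy hxy
    have h4 : ((x + y).num * (x.denom * y.denom)).coeff ((x + y).denom.natDegree +
        (x.denom.natDegree + y.denom.natDegree)) = _ :=
      congrArg (fun p => p.coeff ((x + y).denom.natDegree + (x.denom.natDegree +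
        y.denom.natDegree))) (RatFunc.num_denom_add x y)
    change _ = ((x.num * y.denom + x.denom * y.num) * (x + y).denom).coeff
      ((x + y).denom.natDegree + (x.denom.natDegree + y.denom.natDegree)) at h4
    rw [coeff_mul_add_eq_of_natDegree_le hxy (hdd x y), hkey, mul_one] at h4
    rw [h4, add_comm ((x + y).denom.natDegree)]
    have hb : (x.num * y.denom + x.denom * y.num).natDegree ≤ x.denom.natDegree +
        y.denom.natDegree := by
      refine (natDegree_add_le _ _).trans (max_le ?_ ?_)
      · exact natDegree_mul_le.trans (by omega)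
      · exact natDegree_mul_le.trans (by omega)
    rw [coeff_mul_add_eq_of_natDegree_le hb le_rfl, hmon, mul_one, coeff_add,
      coeff_mul_add_eq_of_natDegree_le hx le_rfl, coeff_mul_add_eq_of_natDegree_le le_rfl hy, hmon, hmon]
    ring
  · intro x hx y hy
    have hxy := hmul x hx y hy
    unfold rI
    rw [← map_mul]
    congr 1
    rw [mem_Iinf] at hx hy hxy
    have h4 : ((x * y).num * (x.denom * y.denom)).coeff ((x * y).denom.natDegree +
        (x.denom.natDegree + y.denom.natDegree)) = _ :=
      congrArg (fun p => p.coeff ((x * y).denom.natDegree + (x.denom.natDegree +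
        y.denom.natDegree))) (RatFunc.num_denom_mul x y)
    change _ = (x.num * y.num * (x * y).denom).coeff
      ((x * y).denom.natDegree + (x.denom.natDegree + y.denom.natDegree)) at h4
    rw [coeff_mul_add_eq_of_natDegree_le hxy (hdd x y), hkey, mul_one] at h4
    rw [h4, add_comm ((x * y).denom.natDegree)]
    have hb : (x.num * y.num).natDegree ≤ x.denom.natDegree + y.denom.natDegree :=
      natDegree_mul_le.trans (by omega)
    rw [coeff_mul_add_eq_of_natDegree_le hb le_rfl, hmon, mul_one, coeff_mul_add_eq_of_natDegree_le hx hy]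
  · intro x hx
    unfold rI
    have h1 : AdjoinRoot.of X (x.num.coeff x.denom.natDegree) = 0 ↔
        x.num.coeff x.denom.natDegree = 0 := by
      constructor
      · intro h; exact ofX_inj (by rw [h, map_zero])
      · intro h; rw [h, map_zero]
    rw [h1, div_inv_eq_mul]
    by_cases hx0 : x = 0
    · subst hx0
      simp only [RatFunc.num_zero, coeff_zero, zero_mul, true_iff]
      exact (OInf F).zero_mem
    · have h2 : x * RatFunc.X ∈ Iinf F ↔ x.intDegree + 1 ≤ 0 := by
        show (x * RatFunc.X).intDegree ≤ 0 ↔ _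
        rw [RatFunc.intDegree_mul hx0 hX0, RatFunc.intDegree_X]
      rw [h2]
      unfold RatFunc.intDegree
      rw [mem_Iinf] at hx
      have hn0 : x.num ≠ 0 := fun h => hx0 (RatFunc.num_eq_zero_iff.1 h)
      constructor
      · intro h3
        have : x.num.natDegree ≠ x.denom.natDegree := by
          intro h4
          rw [← h4] at h3
          exact hn0 (leadingCoeff_eq_zero.1 h3)
        omega
      · intro h3
        exact coeff_eq_zero_of_natDegree_lt (by omega)
  · intro x hx h
    rw [div_inv_eq_mul] at h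
    by_cases hx0 : x = 0
    · subst hx0; rw [_root_.inv_zero]; exact (OInf F).zero_mem
    · have h2 : ¬ x.intDegree + 1 ≤ 0 := by
        intro h3
        apply h
        show (x * RatFunc.X).intDegree ≤ 0
        rw [RatFunc.intDegree_mul hx0 hX0, RatFunc.intDegree_X]
        exact h3
      show x⁻¹.intDegree ≤ 0
      rw [RatFunc.intDegree_inv]
      omega
  · intro c
    obtain ⟨p, rfl⟩ := AdjoinRoot.mk_surjective c
    refine ⟨RatFunc.C (p.coeff 0), ?_, ?_⟩
    · rw [mem_Iinf]; simp
    · unfold rI
      rw [mkX]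
      simp

/-- The value at infinity of `p / t ^ M`. -/
theorem rI_div (M : ℕ) (p : F[X]) (hp : p.natDegree ≤ M) :
    algebraMap F[X] (RatFunc F) p / RatFunc.X ^ M ∈ Iinf F ∧
      rI (algebraMap F[X] (RatFunc F) p / RatFunc.X ^ M) =
        AdjoinRoot.mk (X : F[X]) (p.reflect M) := by
  set x := algebraMap F[X] (RatFunc F) p / RatFunc.X ^ M with hx
  have hX0 : (RatFunc.X : RatFunc F) ≠ 0 := RatFunc.X_ne_zero
  have hd0 : algebraMap F[X] (RatFunc F) x.denom ≠ 0 := by
    simpa using x.denom_ne_zero
  have hx1 : x = algebraMap F[X] (RatFunc F) x.num / algebraMap F[X] (RatFunc F) x.denom :=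
    (RatFunc.num_div_denom x).symm
  have e1 : algebraMap F[X] (RatFunc F) (x.num * X ^ M) =
      algebraMap F[X] (RatFunc F) (p * x.denom) := by
    rw [map_mul, map_mul, map_pow, RatFunc.algebraMap_X]
    rw [alg_num x, hx]
    field_simp
  have e4 : x.num * X ^ M = p * x.denom := RatFunc.algebraMap_injective F e1
  have hdeg : x.num.natDegree ≤ x.denom.natDegree := by
    by_cases hn : x.num = 0
    · rw [hn]; simp
    · have h1 := congrArg natDegree e4
      rw [natDegree_mul hn (pow_ne_zero _ X_ne_zero), natDegree_X_pow] at h1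
      have h2 : (p * x.denom).natDegree ≤ p.natDegree + x.denom.natDegree := natDegree_mul_le
      omega
  refine ⟨mem_Iinf.2 hdeg, ?_⟩
  have h5 : (x.num * X ^ M).coeff (x.denom.natDegree + M) =
      (p * x.denom).coeff (x.denom.natDegree + M) := by rw [e4]
  rw [coeff_mul_add_eq_of_natDegree_le hdeg (natDegree_X_pow_le M), coeff_X_pow_self, mul_one,
    add_comm, coeff_mul_add_eq_of_natDegree_le hp le_rfl, (RatFunc.monic_denom x).coeff_natDegree,
    mul_one] at h5
  unfold rI
  rw [h5, mkX, coeff_reflect]
  congr 2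

end Pool.AVS.WUW
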