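import Pool.Agent.H91.AVS.Red

/-!
# AVS, module WUW: the weighted upper counting inequality for one curve
-/

set_option autoImplicit false

namespace Pool.AVS

open Polynomial Matrix Pool.AVR

namespace WUW

variable {F : Type} [Field F]

/-- The number of local pairs. -/
noncomputable def Iw (Q : F[X]) (N : ℕ) (a b c : F[X]) : ℝ :=
  (Nat.card (AdjoinRoot Q) : ℝ) * nE (AdjoinRoot (Q ^ N)) (AdjoinRoot.mk (Q ^ N) a)
    (AdjoinRoot.mk (Q ^ N) b) (AdjoinRoot.mk (Q ^ N) c) / Nat.card (AdjoinRoot (Q ^ N)) + 1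

theorem Iw_pos (Q : F[X]) (N : ℕ) (a b c : F[X]) : 0 < Iw Q N a b c := by
  unfold Iw; positivity

theorem Iw_le [Finite F] {Q : F[X]} (hQ : Q.Monic) {N : ℕ} (hN : 1 ≤ N) {a b c : F[X]} {M : ℕ}
    (h : nE (AdjoinRoot (Q ^ N)) (AdjoinRoot.mk (Q ^ N) a)
        (AdjoinRoot.mk (Q ^ N) b) (AdjoinRoot.mk (Q ^ N) c) + Nat.card (AdjoinRoot Q) ^ (N - 1) ≤
          M * Nat.card (AdjoinRoot Q) ^ (N - 1)) : Iw Q N a b c ≤ M := by
  unfold Iw
  obtain ⟨_, hc⟩ := card_adj Q hQ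
  obtain ⟨_, hc'⟩ := card_adj (Q ^ N) (hQ.pow N)
  have hcc : Nat.card (AdjoinRoot (Q ^ N)) = Nat.card (AdjoinRoot Q) ^ N := by
    rw [hc, hc', natDegree_pow, ← pow_mul]
    congr 1
    ring
  obtain ⟨N', rfl⟩ : ∃ N', N = N' + 1 := ⟨N - 1, by omega⟩
  rw [hcc]
  have hpos : (0 : ℝ) < Nat.card (AdjoinRoot Q) := by
    rw [hc]
    have : 0 < Nat.card F := Nat.card_pos
    positivity
  have h' : (nE (AdjoinRoot (Q ^ (N' + 1))) (AdjoinRoot.mk (Q ^ (N' + 1)) a)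
        (AdjoinRoot.mk (Q ^ (N' + 1)) b) (AdjoinRoot.mk (Q ^ (N' + 1)) c) : ℝ) +
          (Nat.card (AdjoinRoot Q) : ℝ) ^ N' ≤
          M * (Nat.card (AdjoinRoot Q) : ℝ) ^ N' := by
    rw [Nat.add_sub_cancel] at h
    exact_mod_cast h
  push_cast
  have e : (Nat.card (AdjoinRoot Q) : ℝ) * (nE (AdjoinRoot (Q ^ (N' + 1)))
      (AdjoinRoot.mk (Q ^ (N' + 1)) a) (AdjoinRoot.mk (Q ^ (N' + 1)) b)
      (AdjoinRoot.mk (Q ^ (N' + 1)) c) : ℝ) / (Nat.card (AdjoinRoot Q) : ℝ) ^ (N' + 1) =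
      (nE (AdjoinRoot (Q ^ (N' + 1)))
      (AdjoinRoot.mk (Q ^ (N' + 1)) a) (AdjoinRoot.mk (Q ^ (N' + 1)) b)
      (AdjoinRoot.mk (Q ^ (N' + 1)) c) : ℝ) / (Nat.card (AdjoinRoot Q) : ℝ) ^ N' := by
    rw [pow_succ (Nat.card (AdjoinRoot Q) : ℝ) N']
    generalize (nE (AdjoinRoot (Q ^ (N' + 1)))
      (AdjoinRoot.mk (Q ^ (N' + 1)) a) (AdjoinRoot.mk (Q ^ (N' + 1)) b)
      (AdjoinRoot.mk (Q ^ (N' + 1)) c) : ℝ) = x
    field_simp
  rw [e, ← le_sub_iff_add_le, div_le_iff₀ (by positivity)]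
  linear_combination h'

/-- The coefficients at the place. -/
noncomputable def fv (S : Finset F[X]) (n : ℕ) (f : F[X] × F[X] × F[X]) :
    Pl S → F[X] × F[X] × F[X]
  | none => finf n f
  | some _ => f

/-- One class of the Selmer group: the data. -/
theorem rep_exists [Finite F] (hSEH : SEHStmt) (hKYS : KYSStmt) (hCPH : CPHStmt)
    (hLUG : LUGStmt) (hPTB : PTBStmt) (hBSH : BSHStmt) (hRIP : RIPStmt) (hRII : RIIStmt)
    (h2 : (2 : F) ≠ 0) {n N : ℕ} {S : Finset F[X]} {f : F[X] × F[X] × F[X]}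
    (hf : f ∈ Fam F n) (hS : ∀ P ∈ S, P.Monic ∧ Irreducible P)
    (hd : ∀ P ∈ S, ¬ P ^ N ∣ disc f.1 f.2.1 f.2.2)
    (hdi : ¬ X ^ N ∣ disc (finf n f).1 (finf n f).2.1 (finf n f).2.2)
    (ξ : (Alg f)ˣ ⧸ Sq f) (hξ : ξ ∈ Sel f) :
    ∃ (h : (RatFunc F)[X]) (u : (Alg f)ˣ) (B : Matrix (Fin 3) (Fin 3) F[X])
      (M : Pl S → ℕ) (g : ∀ v, Fin (M v) → Matrix (Fin 3) (Fin 3) (RatFunc F))
      (z : ∀ v, Fin (M v) → Fin 3 → RatFunc F) (w : ∀ v, Fin (M v) → RatFunc F),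
      (u : Alg f) = AdjoinRoot.mk (cubK f) h ∧ QuotientGroup.mk u = ξ ∧ Bᵀ = B ∧
      RepH (kf f).1 (kf f).2.1 (kf f).2.2 h (AA (RatFunc F))
        (B.map (algebraMap F[X] (RatFunc F))) ∧
      (∀ v i, KP (Iv S v) (piv S v) (cv S n v • B.map (algebraMap F[X] (RatFunc F)))
        (g v i) (z v i) (w v i)) ∧
      (∀ v i j, i ≠ j → ¬ Eqv (Iv S v) (piv S v) (g v i) (z v i) (w v i)
        (g v j) (z v j) (w v j)) ∧
      ∀ v, nE (AdjoinRoot (pv S v ^ N)) (AdjoinRoot.mk (pv S v ^ N) (fv S n f v).1)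
        (AdjoinRoot.mk (pv S v ^ N) (fv S n f v).2.1)
        (AdjoinRoot.mk (pv S v ^ N) (fv S n f v).2.2) +
          Nat.card (AdjoinRoot (pv S v)) ^ (N - 1) ≤
          M v * Nat.card (AdjoinRoot (pv S v)) ^ (N - 1) := by
  obtain ⟨h, u, hcop, hu, hmk, hsq, hP, hi⟩ := (hSEH F h2 f).1 ξ hξ
  obtain ⟨m, B, hBd, hR⟩ := hKYS F h2 n f hf h hcop hsq hP hi
  have hBt : (B.map (algebraMap F[X] (RatFunc F)))ᵀ = B.map (algebraMap F[X] (RatFunc F)) := by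
    have h4 : (B.map (algebraMap F[X] (RatFunc F)))ᵀ =
      (Bᵀ).map (algebraMap F[X] (RatFunc F)) := rfl
    rw [h4, hBd.1]
  obtain ⟨ha, hb, hc⟩ := hCPH (RatFunc F) _ _ _ h _ hR
  have hloc : ∀ v : Pl S, ∃ (M : ℕ) (g : Fin M → Matrix (Fin 3) (Fin 3) (RatFunc F))
      (z : Fin M → Fin 3 → RatFunc F) (w : Fin M → RatFunc F),
      (∀ i, KP (Iv S v) (piv S v) (cv S n v • B.map (algebraMap F[X] (RatFunc F)))
        (g i) (z i) (w i)) ∧
      (∀ i j, i ≠ j → ¬ Eqv (Iv S v) (piv S v) (g i) (z i) (w i) (g j) (z j) (w j)) ∧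
      nE (AdjoinRoot (pv S v ^ N)) (AdjoinRoot.mk (pv S v ^ N) (fv S n f v).1)
        (AdjoinRoot.mk (pv S v ^ N) (fv S n f v).2.1)
        (AdjoinRoot.mk (pv S v ^ N) (fv S n f v).2.2) +
          Nat.card (AdjoinRoot (pv S v)) ^ (N - 1) ≤
          M * Nat.card (AdjoinRoot (pv S v)) ^ (N - 1) := by
    rintro (_ | P)
    · exact locI hLUG hPTB hBSH hRII n N f hf h _ hBt ha hb hc hR hi hdi
    · have hPP := hS P.1 P.2
      obtain ⟨M, g, z, w, h1, h2, h3⟩ := locP hLUG hPTB hBSH hRIP P.1 hPP.1 hPP.2 N f h _ hBt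
        ha hb hc hR (hP P.1 hPP.1 hPP.2) (hd P.1 P.2)
      refine ⟨M, g, z, w, ?_, h2, h3⟩
      intro i
      show KP (IP P.1) _ ((1 : RatFunc F) • B.map (algebraMap F[X] (RatFunc F))) _ _ _
      rw [one_smul]
      exact h1 i
  choose M g z w h1 h2 h3 using hloc
  exact ⟨h, u, B, M, g, z, w, hu, hmk, hBd.1, hR, h1, h2, h3⟩

/-- Local data give a global lattice. -/
theorem glob' [Finite F] (hGLB : GLBStmt) (hPOL : POLStmt) (hCHH : CHHStmt) (hCPH : CPHStmt)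
    (hCHI : CHIStmt) (hTRC : TRCStmt) (hCLE : CLEStmt) (h2 : (2 : F) ≠ 0) (n : ℕ)
    {S : Finset F[X]} (hS : ∀ P ∈ S, P.Monic ∧ Irreducible P) (f : F[X] × F[X] × F[X])
    (hsep : (cubK f).Separable) (h : (RatFunc F)[X]) (u : (Alg f)ˣ)
    (hu : (u : Alg f) = AdjoinRoot.mk (cubK f) h)
    (hne : (QuotientGroup.mk u : (Alg f)ˣ ⧸ Sq f) ≠ 1)
    (B₀ : Matrix (Fin 3) (Fin 3) F[X]) (hB₀ : B₀ᵀ = B₀)
    (hr : RepH (kf f).1 (kf f).2.1 (kf f).2.2 h (AA (RatFunc F))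
        (B₀.map (algebraMap F[X] (RatFunc F))))
    (g : Pl S → Matrix (Fin 3) (Fin 3) (RatFunc F)) (z : Pl S → Fin 3 → RatFunc F)
    (w : Pl S → RatFunc F)
    (hKP : ∀ v, KP (Iv S v) (piv S v) (cv S n v • B₀.map (algebraMap F[X] (RatFunc F)))
        (g v) (z v) (w v)) :
    ∃ m ≤ n, ∃ G : Matrix (Fin 3) (Fin 3) (RatFunc F),
      Gᵀ * AA (RatFunc F) * G = AA (RatFunc F) ∧ G.det = 1 ∧
      (∀ v, ∃ κ, GI (Iv S v) κ ∧ G * (Dv S v m)⁻¹ = g v * κ) ∧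
      ∃ B ∈ {B : Matrix (Fin 3) (Fin 3) F[X] | Bd n m B ∧ (AA F[X] * B).charpoly = cubP f},
        B.map (algebraMap F[X] (RatFunc F)) =
          Gᵀ * B₀.map (algebraMap F[X] (RatFunc F)) * G := by
  obtain ⟨m, hm, G, hG1, hG2, hG3, hG4, B, hB1, hB2⟩ := glob hGLB hPOL hCHH hCPH hCHI hTRC hCLE
    h2 n S hS f hsep h u hu hne B₀ hB₀ hr (fun P hP => g (some ⟨P, hP⟩)) (by
      intro P hP
      have h1 := hKP (some ⟨P, hP⟩)
      refine ⟨h1.1, h1.2.1, ?_⟩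
      have h3 := h1.2.2.1
      change MI (IP P) ((g (some ⟨P, hP⟩))ᵀ * ((1 : RatFunc F) •
        B₀.map (algebraMap F[X] (RatFunc F))) * g (some ⟨P, hP⟩)) at h3
      rw [one_smul] at h3
      exact h3) (g none) (by
      have h1 := hKP none
      exact ⟨h1.1, h1.2.1, h1.2.2.1⟩)
  refine ⟨m, hm, G, hG1, hG2, ?_, B, hB1, hB2⟩
  rintro (_ | P)
  · exact hG4
  · obtain ⟨κ, h1, h2⟩ := hG3 P.1 P.2
    refine ⟨κ, h1, ?_⟩
    show G * (1 : Matrix (Fin 3) (Fin 3) (RatFunc F))⁻¹ = _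
    rw [inv_one, mul_one]
    exact h2

/-- Uniqueness. -/
theorem uniq (hCHH : CHHStmt) (hCPH : CPHStmt) (hCHI : CHIStmt) (hINH : INHStmt)
    (hCLE : CLEStmt) (hSTAB : STABStmt) (h2 : (2 : F) ≠ 0) (f : F[X] × F[X] × F[X])
    (hirr : Irreducible (cubK f)) (h h' : (RatFunc F)[X]) (u u' : (Alg f)ˣ)
    (hu : (u : Alg f) = AdjoinRoot.mk (cubK f) h) (hu' : (u' : Alg f) = AdjoinRoot.mk (cubK f) h')
    (B B' : Matrix (Fin 3) (Fin 3) (RatFunc F)) (hBt : Bᵀ = B)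
    (hr : RepH (kf f).1 (kf f).2.1 (kf f).2.2 h (AA (RatFunc F)) B)
    (hr' : RepH (kf f).1 (kf f).2.1 (kf f).2.2 h' (AA (RatFunc F)) B')
    (G G' : Matrix (Fin 3) (Fin 3) (RatFunc F))
    (hG : Gᵀ * AA (RatFunc F) * G = AA (RatFunc F)) (hGd : G.det = 1)
    (hG' : G'ᵀ * AA (RatFunc F) * G' = AA (RatFunc F)) (hGd' : G'.det = 1)
    (he : Gᵀ * B * G = G'ᵀ * B' * G') :
    (QuotientGroup.mk u : (Alg f)ˣ ⧸ Sq f) = QuotientGroup.mk u' ∧ (B = B' → G = G') := by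
  have h2K := two_ratfunc h2
  have r1 := hCHH (RatFunc F) _ _ _ _ _ _ G hr
  have r2 := hCHH (RatFunc F) _ _ _ _ _ _ G' hr'
  rw [hG, he] at r1
  rw [hG'] at r2
  obtain ⟨s, -, hs⟩ := hINH (RatFunc F) h2K _ _ _ _ _ _ r1 r2
  refine ⟨(hCLE F f h h' u u' hu hu').2 ⟨s, hs⟩, ?_⟩
  rintro rfl
  have hu1 : IsUnit G'.det := by rw [hGd']; exact isUnit_one
  have hchar : (AA (RatFunc F) * B).charpoly = cubK f := by
    obtain ⟨ha, hb, hc⟩ := hCPH (RatFunc F) _ _ _ h _ hr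
    exact ((hCHI (RatFunc F) B hBt).2 _ _ _).2 ⟨ha, hb, hc⟩
  have gen : ∀ M : Matrix (Fin 3) (Fin 3) (RatFunc F), Gᵀ * M * G = G'ᵀ * M * G' →
      (G * G'⁻¹)ᵀ * M * (G * G'⁻¹) = M := by
    intro M hM
    have hr1 : G' * G'⁻¹ = 1 := Matrix.mul_nonsing_inv _ hu1
    calc (G * G'⁻¹)ᵀ * M * (G * G'⁻¹) = (G'⁻¹)ᵀ * (Gᵀ * M * G) * G'⁻¹ := by
          rw [Matrix.transpose_mul]; simp only [Matrix.mul_assoc]
      _ = (G'⁻¹)ᵀ * (G'ᵀ * M * G') * G'⁻¹ := by rw [hM]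
      _ = (G' * G'⁻¹)ᵀ * M * (G' * G'⁻¹) := by
          rw [Matrix.transpose_mul]; simp only [Matrix.mul_assoc]
      _ = M := by rw [hr1, Matrix.transpose_one, Matrix.one_mul, Matrix.mul_one]
  have h1 := hSTAB (RatFunc F) h2K B (G * G'⁻¹) hBt (by rw [hchar]; exact hirr)
    (gen _ (hG.trans hG'.symm)) (gen _ he) (by
      rw [det_mul, hGd, one_mul, Matrix.det_nonsing_inv, hGd', Ring.inverse_one])
  have h3 := congrArg (fun M => M * G') h1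
  simp only [mul_assoc, Matrix.nonsing_inv_mul _ hu1, mul_one, one_mul] at h3
  exact h3

theorem charpoly_conj {R : Type} [CommRing R] {g B : Matrix (Fin 3) (Fin 3) R}
    (h : gᵀ * AA R * g = AA R) : (AA R * (gᵀ * B * g)).charpoly = (AA R * B).charpoly := by
  have hAA : AA R * AA R = 1 := by
    refine Matrix.ext fun i j => ?_
    fin_cases i <;> fin_cases j <;> simp [AA, Matrix.mul_apply, Fin.sum_univ_three]
  have inv_left : AA R * gᵀ * AA R * g = 1 := by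
    rw [Matrix.mul_assoc, Matrix.mul_assoc, ← Matrix.mul_assoc gᵀ, h, hAA]
  have inv_right : g * (AA R * gᵀ * AA R) = 1 := mul_eq_one_comm.mp inv_left
  have e1 : AA R * (gᵀ * B * g) = (AA R * gᵀ * AA R) * ((AA R * B) * g) := by
    have : AA R * gᵀ * AA R * (AA R * B * g) = AA R * gᵀ * (AA R * AA R) * (B * g) := by
      simp only [Matrix.mul_assoc]
    rw [this, hAA, Matrix.mul_one]
    simp only [Matrix.mul_assoc]
  rw [e1, Matrix.charpoly_mul_comm, Matrix.mul_assoc, inv_right, Matrix.mul_one]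

end WUW

open WUW

theorem wuw_thm (hSEH : SEHStmt) (hKYS : KYSStmt) (hCLE : CLEStmt) (hINH : INHStmt)
    (hTRC : TRCStmt) (hLUG : LUGStmt) (hGLB : GLBStmt) (hBSH : BSHStmt) (hPTB : PTBStmt)
    (hRIP : RIPStmt) (hRII : RIIStmt) (hBIN : BINStmt) (hPOL : POLStmt)
    (hSTAB : STABStmt) (hCHI : CHIStmt) (hCHH : CHHStmt) (hCPH : CPHStmt) (hGRE : GREStmt)
    (hCNB : CNBStmt) (hACT : ACTStmt) : WUWStmt := by
  intro F _ _ h2 n N S f hf hN hS hd hdi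
  classical
  have hGfin : ∀ m, (GG F m).Finite := (hGRE F h2).1
  -- cardinalities
  have hkap : ∀ v : Pl S, (0 : ℝ) < (Nat.card (AdjoinRoot (pv S v)) : ℝ) - 1 := by
    intro v
    have := pv_fact hS v
    obtain ⟨hfi, hc⟩ := card_adj (pv S v) (pv_monic hS v)
    have h1 : 1 < Nat.card (AdjoinRoot (pv S v)) := Finite.one_lt_card
    have h3 : (1 : ℝ) < Nat.card (AdjoinRoot (pv S v)) := by exact_mod_cast h1
    linarith
  set Iwv : Pl S → ℝ := fun v => Iw (pv S v) N (fv S n f v).1 (fv S n f v).2.1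
    (fv S n f v).2.2 with hIwv
  have hIpos : ∀ v, 0 < Iwv v := fun v => Iw_pos _ _ _ _ _
  set W : ℝ := ∏ v, (((Nat.card (AdjoinRoot (pv S v)) : ℝ) - 1) * Iwv v) with hW
  have hWpos : 0 < W := Finset.prod_pos fun v _ => mul_pos (hkap v) (hIpos v)
  -- the weights
  have hWS : ∀ m ≤ n, ∀ B ∈ {B : Matrix (Fin 3) (Fin 3) F[X] | Bd n m B ∧
      (AA F[X] * B).charpoly = cubP f}, WS n m S N B =
      (∏ v, ((SmF ((redv S n v m B).map (AdjoinRoot.mk (pv S v)))).ncard : ℝ)) / W := by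
    rintro m hm B ⟨hBd, hch⟩
    obtain ⟨ha, hb, hc⟩ := ((hCHI F[X] B hBd.1).2 f.1 f.2.1 f.2.2).1 hch
    obtain ⟨_, _, ha', hb', hc', _⟩ := hBIN F n m hm B hBd
    rw [hW, ← Finset.prod_div_distrib, Fintype.prod_option]
    unfold WS
    rw [mul_comm]
    congr 1
    · unfold wt
      rw [ha', hb', hc', ha, hb, hc]
      rfl
    · rw [← Finset.prod_coe_sort]
      refine Finset.prod_congr rfl fun P _ => ?_
      unfold wt
      rw [ha, hb, hc]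
      rfl
  have hOkf : ∀ m, m ≤ n → ({B : Matrix (Fin 3) (Fin 3) F[X] | Bd n m B ∧
      (AA F[X] * B).charpoly = cubP f}).Finite := fun m hm =>
    (hCNB F n m hm).1.subset fun B hB => hB.1
  have hRHS : ∑ m ∈ Finset.range (n + 1),
      (∑ᶠ B ∈ {B : Matrix (Fin 3) (Fin 3) F[X] | Bd n m B ∧ (AA F[X] * B).charpoly = cubP f},
        WS n m S N B) / (GG F m).ncard = (∑ m ∈ Finset.range (n + 1),
      (∑ᶠ B ∈ {B : Matrix (Fin 3) (Fin 3) F[X] | Bd n m B ∧ (AA F[X] * B).charpoly = cubP f},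
        ∏ v, ((SmF ((redv S n v m B).map (AdjoinRoot.mk (pv S v)))).ncard : ℝ)) /
          (GG F m).ncard) / W := by
    rw [Finset.sum_div]
    refine Finset.sum_congr rfl fun m hm => ?_
    have hmn : m ≤ n := by
      have := Finset.mem_range.1 hm
      omega
    rw [finsum_mem_eq_finite_toFinset_sum (fun B => WS n m S N B) (hOkf m hmn),
      finsum_mem_eq_finite_toFinset_sum (fun B =>
        ∏ v, ((SmF ((redv S n v m B).map (AdjoinRoot.mk (pv S v)))).ncard : ℝ)) (hOkf m hmn),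
      div_right_comm]
    congr 1
    rw [Finset.sum_div]
    refine Finset.sum_congr rfl fun B hB => ?_
    exact hWS m hmn B ((hOkf m hmn).mem_toFinset.1 hB)
  rw [hRHS]
  -- the set
  by_cases hfin : (Sel f \ {1}).Finite
  swap
  · rw [Set.Infinite.ncard hfin, Nat.cast_zero]
    refine div_nonneg (Finset.sum_nonneg fun m _ => div_nonneg ?_ (Nat.cast_nonneg _)) hWpos.le
    exact finsum_nonneg fun B => finsum_nonneg fun _ =>
      Finset.prod_nonneg fun v _ => Nat.cast_nonneg _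
  have : Fintype ↥(Sel f \ {1}) := hfin.fintype
  have hrep := fun ξ : ↥(Sel f \ {1}) => rep_exists hSEH hKYS hCPH hLUG hPTB hBSH hRIP hRII h2
    hf.1 hS hd hdi ξ.1 ξ.2.1
  choose hh uu BB M g z w hu hmk hBt hR hKP hEq hM using hrep
  have hcore := core n (hF := fun v => pv_fact hS v) (pv S) (Iv S) (piv S) (rhov hS)
    (fun v => plcv hS v)
    (fun v => (card_adj (pv S v) (pv_monic hS v)).1) (Dv S) (cv S n) (redv S n)
    (fun m => {B : Matrix (Fin 3) (Fin 3) F[X] | Bd n m B ∧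
      (AA F[X] * B).charpoly = cubP f}) hOkf
    (fun m B hB γ hγ => ⟨hACT F n m B γ hB.1 hγ, (charpoly_conj hγ.1).trans hB.2⟩)
    (fun v m B hB hm => redv_map hS n v m hm B hB.1) (Dv_unit S) (Dv_AA S)
    (fun v m γ hγ => Dv_GG hS v m γ hγ) hGfin
    (fun ξ => (BB ξ).map (algebraMap F[X] (RatFunc F))) M g z w hKP hEq
    (fun ξ q => glob' hGLB hPOL hCHH hCPH hCHI hTRC hCLE h2 n hS f hf.2.2 (hh ξ) (uu ξ) (hu ξ)
      (by
        rw [hmk ξ]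
        exact fun h => ξ.2.2 (by rw [h]; rfl)) (BB ξ) (hBt ξ) (hR ξ) (fun v => g ξ v (q v))
      (fun v => z ξ v (q v)) (fun v => w ξ v (q v)) (fun v => hKP ξ v (q v)))
    (by
      intro ξ ξ' G G' hG hGd hG' hGd' he
      have hBm : ((BB ξ).map (algebraMap F[X] (RatFunc F)))ᵀ =
          (BB ξ).map (algebraMap F[X] (RatFunc F)) := by
        have h4 : ((BB ξ).map (algebraMap F[X] (RatFunc F)))ᵀ =
          ((BB ξ)ᵀ).map (algebraMap F[X] (RatFunc F)) := rfl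
        rw [h4, hBt]
      obtain ⟨h3, h4⟩ := uniq hCHH hCPH hCHI hINH hCLE hSTAB h2 f hf.2.1 (hh ξ) (hh ξ') (uu ξ)
        (uu ξ') (hu ξ) (hu ξ') _ _ hBm (hR ξ) (hR ξ') G G' hG hGd hG' hGd' he
      rw [hmk, hmk] at h3
      have h5 : ξ = ξ' := Subtype.ext h3
      refine ⟨h5, h4 ?_⟩
      rw [h5])
  rw [le_div_iff₀ hWpos]
  refine le_trans ?_ hcore
  have h3 : ((Sel f \ {1}).ncard : ℝ) * W =
      (∑ ξ : ↥(Sel f \ {1}), ∏ v, Iwv v) * ∏ v, ((Nat.card (AdjoinRoot (pv S v)) : ℝ) - 1) := by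
    rw [Finset.sum_const, nsmul_eq_mul, Finset.card_univ, ← Nat.card_eq_fintype_card,
      Nat.card_coe_set_eq, hW, Finset.prod_mul_distrib]
    ring
  rw [h3]
  refine mul_le_mul_of_nonneg_right ?_ (Finset.prod_nonneg fun v _ => (hkap v).le)
  push_cast
  refine Finset.sum_le_sum fun ξ _ => Finset.prod_le_prod (fun v _ => (hIpos v).le) fun v _ => ?_
  exact Iw_le (pv_monic hS v) hN (hM ξ v)

end Pool.AVS
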