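import Pool.Agent.H91.AVS.Places

/-!
# The local pairs at the places of `S` and at infinity (board avs, used for WUW)
-/

set_option autoImplicit false

namespace Pool.AVS.WUW

open Polynomial Matrix Pool.AVR Pool.AVS

theorem nE_equiv {R R' : Type} [CommRing R] [CommRing R'] (e : R ≃+* R') (a b c : R) :
    nE R' (e a) (e b) (e c) = nE R a b c := by
  unfold nE
  have h : {p : R' × R' | p.2 ^ 2 = p.1 ^ 3 + e a * p.1 ^ 2 + e b * p.1 + e c} =
      (fun p : R × R => (e p.1, e p.2)) ''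
        {p : R × R | p.2 ^ 2 = p.1 ^ 3 + a * p.1 ^ 2 + b * p.1 + c} := by
    ext ⟨x, y⟩
    constructor
    · intro h
      refine ⟨(e.symm x, e.symm y), ?_, by simp⟩
      apply e.injective
      simp only [map_pow, map_add, map_mul, RingEquiv.apply_symm_apply]
      exact h
    · rintro ⟨⟨x', y'⟩, h, h2⟩
      have h3 := Prod.mk.inj h2
      rw [← h3.1, ← h3.2]
      have h4 := congrArg e h
      simp only [map_pow, map_add, map_mul] at h4
      exact h4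
  rw [h]
  refine Set.ncard_image_of_injective _ ?_
  rintro ⟨x, y⟩ ⟨x', y'⟩ h1
  have h3 := Prod.mk.inj h1
  exact Prod.ext (e.injective h3.1) (e.injective h3.2)

theorem disc_map {R R' : Type} [CommRing R] [CommRing R'] (φ : R →+* R') (a b c : R) :
    φ (disc a b c) = disc (φ a) (φ b) (φ c) := by
  simp only [disc, map_sub, map_add, map_mul, map_pow, map_ofNat]

theorem cub_map {R R' : Type} [CommRing R] [CommRing R'] (φ : R →+* R') (a b c : R) :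
    (cub a b c).map φ = cub (φ a) (φ b) (φ c) := by
  simp [cub]

theorem cub_monic {R : Type} [CommRing R] [Nontrivial R] (a b c : R) : (cub a b c).Monic := by
  unfold cub; monicity!

theorem tau_map {K L : Type} [Field K] [Field L] (ι : K →+* L) (a b c : K) (p : K[X]) :
    tau (ι a) (ι b) (ι c) (p.map ι) = ι (tau a b c p) := by
  unfold tau
  rw [← cub_map, ← Polynomial.map_modByMonic _ (cub_monic a b c), coeff_map]

theorem repH_map {K L : Type} [Field K] [Field L] (ι : K →+* L) {a b c : K} {h : K[X]}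
    {G B : Matrix (Fin 3) (Fin 3) K} (hr : RepH a b c h G B) :
    RepH (ι a) (ι b) (ι c) (h.map ι) (G.map ι) (B.map ι) := by
  obtain ⟨e, h1, h2⟩ := hr
  refine ⟨fun i => (e i).map ι, fun i j => ?_, fun i j => ?_⟩
  · rw [← Polynomial.map_mul, ← Polynomial.map_mul, tau_map, h1, Matrix.map_apply]
  · rw [← Polynomial.map_mul, ← Polynomial.map_mul, ← Polynomial.map_X ι,
      ← Polynomial.map_mul, tau_map, h2, Matrix.map_apply]

theorem AA_map {K L : Type} [Field K] [Field L] (ι : K →+* L) : (AA K).map ι = AA L := by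
  ext i j
  fin_cases i <;> fin_cases j <;> simp [AA]

theorem AA_det (K : Type) [Field K] : (AA K).det = -1 := by
  simp [AA, Matrix.det_fin_three]

/-- A soluble class gives a point of the covering. -/
theorem cov_exists (hPTB : PTBStmt) (hBSH : BSHStmt) {K : Type} [Field K] (h2 : (2 : K) ≠ 0)
    {a b c : K} {h : K[X]} {B : Matrix (Fin 3) (Fin 3) K} (hs : LocSol a b c h)
    (hr : RepH a b c h (AA K) B) : ∃ (z : Fin 3 → K) (w : K), Cov B z w ∧ w ≠ 0 := by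
  obtain ⟨x, y, hC, hy, s, hd⟩ := hs
  have h1 := (hPTB K h2 a b c x y hC).2 hy h s hd
  obtain ⟨g, hg1, hg2⟩ := hBSH K a b c h (AA K) (BP a b x y) (AA K) B h1 hr (by
    rw [AA_det]; exact neg_ne_zero.2 one_ne_zero)
  have hb : ∀ M : Matrix (Fin 3) (Fin 3) K, bil M (g *ᵥ ![1, 0, 0]) (g *ᵥ ![1, 0, 0]) =
      (gᵀ * M * g) 0 0 := by
    intro M
    rw [← bil_conj]
    unfold bil
    simp [Matrix.mulVec, dotProduct, Fin.sum_univ_three]
  have hB : bil B (g *ᵥ ![1, 0, 0]) (g *ᵥ ![1, 0, 0]) = -1 := by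
    rw [hb, ← hg2]; simp [BP]
  refine ⟨g *ᵥ ![1, 0, 0], 1, ⟨?_, ?_, ?_⟩, one_ne_zero⟩
  · intro h0
    rw [h0] at hB
    unfold bil at hB
    rw [zero_dotProduct] at hB
    exact one_ne_zero (neg_eq_zero.1 hB.symm)
  · rw [hb, ← hg1]; simp [AA]
  · rw [hB]; norm_num

section loc

variable {F : Type} [Field F] [Finite F]

/-- The local pairs at a prime `P`. -/
theorem locP (hLUG : LUGStmt) (hPTB : PTBStmt) (hBSH : BSHStmt) (hRIP : RIPStmt)
    (P : F[X]) (hPm : P.Monic) (hPi : Irreducible P) (N : ℕ)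
    (f : F[X] × F[X] × F[X]) (h : (RatFunc F)[X]) (B : Matrix (Fin 3) (Fin 3) (RatFunc F))
    (hBt : Bᵀ = B) (ha : ia B = (kf f).1) (hb : ib B = (kf f).2.1) (hc : ic B = (kf f).2.2)
    (hr : RepH (kf f).1 (kf f).2.1 (kf f).2.2 h (AA (RatFunc F)) B)
    (hs : SolAt (IP P) (algebraMap F[X] (RatFunc F) P) f h)
    (hd : ¬ P ^ N ∣ disc f.1 f.2.1 f.2.2) :
    ∃ (M : ℕ) (g : Fin M → Matrix (Fin 3) (Fin 3) (RatFunc F)) (z : Fin M → Fin 3 → RatFunc F)
      (w : Fin M → RatFunc F),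
      (∀ i, KP (IP P) (algebraMap F[X] (RatFunc F) P) B (g i) (z i) (w i)) ∧
      (∀ i j, i ≠ j → ¬ Eqv (IP P) (algebraMap F[X] (RatFunc F) P) (g i) (z i) (w i)
        (g j) (z j) (w j)) ∧
      nE (AdjoinRoot (P ^ N)) (AdjoinRoot.mk (P ^ N) f.1) (AdjoinRoot.mk (P ^ N) f.2.1)
        (AdjoinRoot.mk (P ^ N) f.2.2) + Nat.card (AdjoinRoot P) ^ (N - 1) ≤
          M * Nat.card (AdjoinRoot P) ^ (N - 1) := by
  obtain ⟨L, _, O, ι, hι, hsol⟩ := hs
  have : Fact (Irreducible P) := ⟨hPi⟩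
  have hpl := plcP (F := F) P
  have hmem : ∀ p : F[X], ι (algebraMap F[X] (RatFunc F) p) ∈ O := by
    intro p
    rw [hι.mem]
    show ¬ P ∣ _
    rw [RatFunc.denom_algebraMap]
    intro h1
    exact hPi.not_isUnit (isUnit_of_dvd_one h1)
  obtain ⟨hk1, hk2, hk3⟩ := hRIP F P hPm hPi L O ι hι
  obtain ⟨e, he⟩ := hk3 N
  have hrL := repH_map ι hr
  rw [AA_map] at hrL
  obtain ⟨z₀, w₀, hcov, hw₀⟩ := cov_exists hPTB hBSH hι.loc.two.1 hsol hrL
  set a : O := ⟨ι (algebraMap F[X] (RatFunc F) f.1), hmem f.1⟩ with hadef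
  set b : O := ⟨ι (algebraMap F[X] (RatFunc F) f.2.1), hmem f.2.1⟩ with hbdef
  set c : O := ⟨ι (algebraMap F[X] (RatFunc F) f.2.2), hmem f.2.2⟩ with hcdef
  have hdisc : disc a b c ∉ (IsLocalRing.maximalIdeal O) ^ N := by
    intro h1
    have h2 : Ideal.Quotient.mk ((IsLocalRing.maximalIdeal O) ^ N) (disc a b c) = 0 :=
      Ideal.Quotient.eq_zero_iff_mem.2 h1
    have h3 := congrArg e h2
    rw [map_zero, disc_map, ← RingEquiv.coe_toRingHom, disc_map] at h3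
    rw [RingEquiv.coe_toRingHom, he, he, he, ← disc_map, AdjoinRoot.mk_eq_zero] at h3
    exact hd h3
  obtain ⟨M, g, z, w, h1, h2, h3⟩ := hLUG F (IP P) _ L O ι hι N a b c hdisc B z₀ w₀ hBt
    (by rw [ha]; rfl) (by rw [hb]; rfl) (by rw [hc]; rfl) hcov hw₀
  refine ⟨M, g, z, w, h1, h2, ?_⟩
  rw [hk1, ← nE_equiv e, he, he, he] at h3
  rw [hk2]
  exact h3

theorem Binf_inv (n : ℕ) (B : Matrix (Fin 3) (Fin 3) (RatFunc F)) :
    ia ((RatFunc.X : RatFunc F) ^ (-(2 * n : ℤ)) • B) = ia B / RatFunc.X ^ (2 * n) ∧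
    ib ((RatFunc.X : RatFunc F) ^ (-(2 * n : ℤ)) • B) = ib B / RatFunc.X ^ (4 * n) ∧
    ic ((RatFunc.X : RatFunc F) ^ (-(2 * n : ℤ)) • B) = ic B / RatFunc.X ^ (6 * n) := by
  have hX0 : (RatFunc.X : RatFunc F) ≠ 0 := RatFunc.X_ne_zero
  have h1 : (RatFunc.X : RatFunc F) ^ (-(2 * n : ℤ)) = (RatFunc.X ^ (2 * n))⁻¹ := by
    rw [_root_.zpow_neg]; norm_cast
  have e4 : (RatFunc.X : RatFunc F) ^ (4 * n) = (RatFunc.X ^ (2 * n)) ^ 2 := by
    rw [← pow_mul]; congr 1; ring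
  have e6 : (RatFunc.X : RatFunc F) ^ (6 * n) = (RatFunc.X ^ (2 * n)) ^ 3 := by
    rw [← pow_mul]; congr 1; ring
  have h0 : (RatFunc.X : RatFunc F) ^ (2 * n) ≠ 0 := pow_ne_zero _ hX0
  rw [h1, e4, e6]
  refine ⟨?_, ?_, ?_⟩
  · simp only [ia, Matrix.smul_apply, smul_eq_mul]; field_simp
  · simp only [ib, Matrix.smul_apply, smul_eq_mul]; field_simp
  · simp only [ic, Matrix.det_smul, Fintype.card_fin]; field_simp

/-- The local pairs at infinity. -/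
theorem locI (hLUG : LUGStmt) (hPTB : PTBStmt) (hBSH : BSHStmt) (hRII : RIIStmt)
    (n N : ℕ) (f : F[X] × F[X] × F[X]) (hf : f ∈ Fam F n) (h : (RatFunc F)[X])
    (B : Matrix (Fin 3) (Fin 3) (RatFunc F))
    (hBt : Bᵀ = B) (ha : ia B = (kf f).1) (hb : ib B = (kf f).2.1) (hc : ic B = (kf f).2.2)
    (hr : RepH (kf f).1 (kf f).2.1 (kf f).2.2 h (AA (RatFunc F)) B)
    (hs : SolAt (Iinf F) (RatFunc.X)⁻¹ f h)
    (hd : ¬ X ^ N ∣ disc (finf n f).1 (finf n f).2.1 (finf n f).2.2) :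
    ∃ (M : ℕ) (g : Fin M → Matrix (Fin 3) (Fin 3) (RatFunc F)) (z : Fin M → Fin 3 → RatFunc F)
      (w : Fin M → RatFunc F),
      (∀ i, KP (Iinf F) (RatFunc.X)⁻¹ ((RatFunc.X : RatFunc F) ^ (-(2 * n : ℤ)) • B)
        (g i) (z i) (w i)) ∧
      (∀ i j, i ≠ j → ¬ Eqv (Iinf F) (RatFunc.X)⁻¹ (g i) (z i) (w i) (g j) (z j) (w j)) ∧
      nE (AdjoinRoot ((X : F[X]) ^ N)) (AdjoinRoot.mk (X ^ N) (finf n f).1)
        (AdjoinRoot.mk (X ^ N) (finf n f).2.1) (AdjoinRoot.mk (X ^ N) (finf n f).2.2) +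
          Nat.card (AdjoinRoot (X : F[X])) ^ (N - 1) ≤
          M * Nat.card (AdjoinRoot (X : F[X])) ^ (N - 1) := by
  obtain ⟨L, _, O, ι, hι, hsol⟩ := hs
  have hX0 : (RatFunc.X : RatFunc F) ≠ 0 := RatFunc.X_ne_zero
  have hιX : ι RatFunc.X ≠ 0 := (map_ne_zero ι).2 hX0
  obtain ⟨hf1, hf2, hf3⟩ := hf
  obtain ⟨hk1, hk2, hk3⟩ := hRII F L O ι hι
  obtain ⟨e, he⟩ := hk3 N
  have hrL := repH_map ι hr
  rw [AA_map] at hrL
  obtain ⟨z₀, w₀, hcov, hw₀⟩ := cov_exists hPTB hBSH hι.loc.two.1 hsol hrL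
  obtain ⟨hi1, hi2, hi3⟩ := Binf_inv n B
  have hm1 : ι (algebraMap F[X] (RatFunc F) f.1 / RatFunc.X ^ (2 * n)) ∈ O :=
    (hι.mem _).2 (rI_div _ _ hf1).1
  have hm2 : ι (algebraMap F[X] (RatFunc F) f.2.1 / RatFunc.X ^ (4 * n)) ∈ O :=
    (hι.mem _).2 (rI_div _ _ hf2).1
  have hm3 : ι (algebraMap F[X] (RatFunc F) f.2.2 / RatFunc.X ^ (6 * n)) ∈ O :=
    (hι.mem _).2 (rI_div _ _ hf3).1
  set a : O := ⟨_, hm1⟩ with hadef
  set b : O := ⟨_, hm2⟩ with hbdef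
  set c : O := ⟨_, hm3⟩ with hcdef
  have he1 : e (Ideal.Quotient.mk _ a) = AdjoinRoot.mk (X ^ N) (finf n f).1 :=
    he _ _ hf1 hm1
  have he2 : e (Ideal.Quotient.mk _ b) = AdjoinRoot.mk (X ^ N) (finf n f).2.1 :=
    he _ _ hf2 hm2
  have he3 : e (Ideal.Quotient.mk _ c) = AdjoinRoot.mk (X ^ N) (finf n f).2.2 :=
    he _ _ hf3 hm3
  have hdisc : disc a b c ∉ (IsLocalRing.maximalIdeal O) ^ N := by
    intro h1
    have h2 : Ideal.Quotient.mk ((IsLocalRing.maximalIdeal O) ^ N) (disc a b c) = 0 :=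
      Ideal.Quotient.eq_zero_iff_mem.2 h1
    have h3 := congrArg e h2
    rw [map_zero, disc_map, ← RingEquiv.coe_toRingHom, disc_map] at h3
    rw [RingEquiv.coe_toRingHom, he1, he2, he3, ← disc_map, AdjoinRoot.mk_eq_zero] at h3
    exact hd h3
  have hcov' : Cov (((RatFunc.X : RatFunc F) ^ (-(2 * n : ℤ)) • B).map ι) z₀
      (w₀ * (ι RatFunc.X ^ n)⁻¹) := by
    obtain ⟨h1, h2, h3⟩ := hcov
    refine ⟨h1, h2, ?_⟩
    have h4 : bil (((RatFunc.X : RatFunc F) ^ (-(2 * n : ℤ)) • B).map ι) z₀ z₀ =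
        (ι RatFunc.X ^ (2 * n))⁻¹ * bil (B.map ι) z₀ z₀ := by
      have h5 : ((RatFunc.X : RatFunc F) ^ (-(2 * n : ℤ)) • B).map ι =
          (ι RatFunc.X ^ (2 * n))⁻¹ • B.map ι := by
        ext i j
        simp only [Matrix.map_apply, Matrix.smul_apply, smul_eq_mul, map_mul, map_zpow₀]
        rw [_root_.zpow_neg]
        norm_cast
      rw [h5]
      unfold bil
      rw [Matrix.smul_mulVec, dotProduct_smul, smul_eq_mul]
    rw [h4, mul_pow, h3]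
    have h6 : ((ι RatFunc.X ^ n)⁻¹) ^ 2 = (ι RatFunc.X ^ (2 * n))⁻¹ := by
      rw [inv_pow, ← pow_mul, mul_comm n 2]
    rw [h6]
    ring
  obtain ⟨M, g, z, w, h1, h2, h3⟩ := hLUG F (Iinf F) _ L O ι hι N a b c hdisc
    ((RatFunc.X : RatFunc F) ^ (-(2 * n : ℤ)) • B) z₀ _ (by rw [transpose_smul, hBt])
    (by rw [hi1, ha]; rfl) (by rw [hi2, hb]; rfl) (by rw [hi3, hc]; rfl) hcov'
    (mul_ne_zero hw₀ (inv_ne_zero (pow_ne_zero _ hιX)))
  refine ⟨M, g, z, w, h1, h2, ?_⟩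
  rw [hk1, ← nE_equiv e, he1, he2, he3] at h3
  rw [hk2]
  exact h3

end loc

end Pool.AVS.WUW
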