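import Pool.Agent.H91.AVS.Loc

/-!
# The injection behind the weighted counting inequality (board avs, used for WUW)
-/

set_option autoImplicit false

namespace Pool.AVS.WUW

open Polynomial Matrix Pool.AVR Pool.AVS

theorem one_mem_GG (F : Type) [Field F] (m : ℕ) : (1 : Matrix (Fin 3) (Fin 3) F[X]) ∈ GG F m := by
  refine ⟨by simp, det_one, ?_⟩
  intro i j h
  by_cases hij : i = j
  · subst hij; simp
  · exact absurd (Matrix.one_apply_ne hij) h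

/-- The reduced point attached to a matrix `κ`, a local pair and a scalar. -/
noncomputable def pnt {K k : Type} [Field K] [Field k] (ρ : K → k) (κ : Matrix (Fin 3) (Fin 3) K)
    (z : Fin 3 → K) (w : K) (l : k) : (Fin 3 → k) × k :=
  (l • fun i => ρ ((κ⁻¹ *ᵥ z) i), l * ρ w)

theorem pnt_mem {K k : Type} [Field K] [Field k] {I : Set K} {ϖ : K} {ρ : K → k}
    (h : Plc I ϖ ρ) {B g κ : Matrix (Fin 3) (Fin 3) K} {z : Fin 3 → K} {w : K} {l : k}
    (hl : l ≠ 0) (hk : KP I ϖ B g z w) (hκ : GI I κ)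
    (hA : (g * κ)ᵀ * AA K * (g * κ) = AA K) :
    pnt ρ κ z w l ∈ SmF (((g * κ)ᵀ * B * (g * κ)).map ρ) := by
  obtain ⟨_, _, h3, h4⟩ := hk
  have h5 := h.smo_change hκ h4
  have e : ∀ M : Matrix (Fin 3) (Fin 3) K, κᵀ * (gᵀ * M * g) * κ = (g * κ)ᵀ * M * (g * κ) := by
    intro M
    rw [transpose_mul]
    simp only [mul_assoc]
  rw [e, e, hA] at h5
  have hmi : MI I ((g * κ)ᵀ * B * (g * κ)) := by
    rw [← e]
    exact h.mi_mul (h.mi_mul (mi_transpose hκ.1) h3) hκ.1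
  exact smF_smul (h.smo_red hmi h5) hl

theorem core {F : Type} [Field F] [Finite F] (n : ℕ) {V : Type} [Fintype V]
    (p : V → F[X]) [hF : ∀ v, Fact (Irreducible (p v))] (I : V → Set (RatFunc F))
    (ϖ : V → RatFunc F) (ρ : ∀ v, RatFunc F → AdjoinRoot (p v))
    (hpl : ∀ v, Plc (I v) (ϖ v) (ρ v)) (hfin : ∀ v, Finite (AdjoinRoot (p v)))
    (D : V → ℕ → Matrix (Fin 3) (Fin 3) (RatFunc F)) (c : V → RatFunc F)
    (red : V → ℕ → Matrix (Fin 3) (Fin 3) F[X] → Matrix (Fin 3) (Fin 3) F[X])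
    (Ok : ℕ → Set (Matrix (Fin 3) (Fin 3) F[X])) (hOkf : ∀ m, m ≤ n → (Ok m).Finite)
    (hOkγ : ∀ m, ∀ B ∈ Ok m, ∀ γ ∈ GG F m, γᵀ * B * γ ∈ Ok m)
    (hred : ∀ v m, ∀ B ∈ Ok m, m ≤ n → (red v m B).map (AdjoinRoot.mk (p v)) =
      (c v • (((D v m)⁻¹)ᵀ * B.map (algebraMap F[X] (RatFunc F)) * (D v m)⁻¹)).map (ρ v))
    (hDu : ∀ v m, IsUnit (D v m).det)
    (hDA : ∀ v m, ((D v m)⁻¹)ᵀ * AA (RatFunc F) * (D v m)⁻¹ = AA (RatFunc F))
    (hDG : ∀ v m, ∀ γ ∈ GG F m,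
      GI (I v) (D v m * γ.map (algebraMap F[X] (RatFunc F)) * (D v m)⁻¹))
    (hGG : ∀ m, (GG F m).Finite)
    {T : Type} [Fintype T] (Bs : T → Matrix (Fin 3) (Fin 3) (RatFunc F)) (M : T → V → ℕ)
    (g : ∀ ξ v, Fin (M ξ v) → Matrix (Fin 3) (Fin 3) (RatFunc F))
    (z : ∀ ξ v, Fin (M ξ v) → Fin 3 → RatFunc F) (w : ∀ ξ v, Fin (M ξ v) → RatFunc F)
    (hKP : ∀ ξ v i, KP (I v) (ϖ v) (c v • Bs ξ) (g ξ v i) (z ξ v i) (w ξ v i))
    (hEq : ∀ ξ v i j, i ≠ j → ¬ Eqv (I v) (ϖ v) (g ξ v i) (z ξ v i) (w ξ v i)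
      (g ξ v j) (z ξ v j) (w ξ v j))
    (hglob : ∀ ξ (q : ∀ v, Fin (M ξ v)), ∃ m ≤ n, ∃ G : Matrix (Fin 3) (Fin 3) (RatFunc F),
      Gᵀ * AA (RatFunc F) * G = AA (RatFunc F) ∧ G.det = 1 ∧
      (∀ v, ∃ κ, GI (I v) κ ∧ G * (D v m)⁻¹ = g ξ v (q v) * κ) ∧
      ∃ B ∈ Ok m, B.map (algebraMap F[X] (RatFunc F)) = Gᵀ * Bs ξ * G)
    (hinj : ∀ ξ ξ' (G G' : Matrix (Fin 3) (Fin 3) (RatFunc F)),
      Gᵀ * AA (RatFunc F) * G = AA (RatFunc F) → G.det = 1 →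
      G'ᵀ * AA (RatFunc F) * G' = AA (RatFunc F) → G'.det = 1 →
      Gᵀ * Bs ξ * G = G'ᵀ * Bs ξ' * G' → ξ = ξ' ∧ G = G') :
    ((∑ ξ, ∏ v, M ξ v : ℕ) : ℝ) * ∏ v, ((Nat.card (AdjoinRoot (p v)) : ℝ) - 1) ≤
      ∑ m ∈ Finset.range (n + 1), (∑ᶠ B ∈ Ok m,
        ∏ v, ((SmF ((red v m B).map (AdjoinRoot.mk (p v)))).ncard : ℝ)) / (GG F m).ncard := by
  classical
  choose mq hmq Gq hGA hGd hκ hB using hglob
  choose κq hκ1 hκ2 using hκ
  choose Bq hBq1 hBq2 using hB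
  set alg := algebraMap F[X] (RatFunc F) with halg
  -- the local matrix for `(ξ, q, γ)`
  have hmapmul : ∀ A B : Matrix (Fin 3) (Fin 3) F[X], (A * B).map alg = A.map alg * B.map alg :=
    fun A B => Matrix.map_mul
  have hmaptr : ∀ A : Matrix (Fin 3) (Fin 3) F[X], (Aᵀ).map alg = (A.map alg)ᵀ := fun A => rfl
  have hAAmap : (AA F[X]).map alg = AA (RatFunc F) := by
    ext i j
    fin_cases i <;> fin_cases j <;> simp [AA, halg]
  let kk : ∀ (ξ : T) (q : ∀ v, Fin (M ξ v)) (v : V) (γ : Matrix (Fin 3) (Fin 3) F[X]),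
      Matrix (Fin 3) (Fin 3) (RatFunc F) := fun ξ q v γ =>
    κq ξ q v * (D v (mq ξ q) * γ.map alg * (D v (mq ξ q))⁻¹)
  have hkk : ∀ ξ q v, ∀ γ ∈ GG F (mq ξ q), GI (I v) (kk ξ q v γ) := fun ξ q v γ hγ =>
    (hpl v).gi_mul (hκ1 ξ q v) (hDG v _ γ hγ)
  have hgk : ∀ ξ q v γ, g ξ v (q v) * kk ξ q v γ =
      Gq ξ q * γ.map alg * (D v (mq ξ q))⁻¹ := by
    intro ξ q v γ
    show g ξ v (q v) * (κq ξ q v * (D v (mq ξ q) * γ.map alg * (D v (mq ξ q))⁻¹)) = _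
    rw [← mul_assoc, ← hκ2]
    calc Gq ξ q * (D v (mq ξ q))⁻¹ * (D v (mq ξ q) * γ.map alg * (D v (mq ξ q))⁻¹)
        = Gq ξ q * ((D v (mq ξ q))⁻¹ * D v (mq ξ q)) * γ.map alg * (D v (mq ξ q))⁻¹ := by
          simp only [mul_assoc]
      _ = _ := by rw [Matrix.nonsing_inv_mul _ (hDu v _), mul_one]
  have hγA : ∀ m, ∀ γ ∈ GG F m, (γ.map alg)ᵀ * AA (RatFunc F) * γ.map alg = AA (RatFunc F) := by
    intro m γ hγ
    rw [← hmaptr, ← hAAmap, ← hmapmul, ← hmapmul, hγ.1]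
  have hγd : ∀ m, ∀ γ ∈ GG F m, (γ.map alg).det = 1 := by
    intro m γ hγ
    have h1 := RingHom.map_det alg γ
    rw [RingHom.mapMatrix_apply] at h1
    rw [← h1, hγ.2.1, map_one]
  have hGγA : ∀ ξ q, ∀ γ ∈ GG F (mq ξ q), (Gq ξ q * γ.map alg)ᵀ * AA (RatFunc F) *
      (Gq ξ q * γ.map alg) = AA (RatFunc F) := by
    intro ξ q γ hγ
    calc _ = (γ.map alg)ᵀ * ((Gq ξ q)ᵀ * AA (RatFunc F) * Gq ξ q) * γ.map alg := by
          rw [transpose_mul]; simp only [mul_assoc]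
      _ = _ := by rw [hGA, hγA _ γ hγ]
  have hconj : ∀ ξ q, ∀ γ : Matrix (Fin 3) (Fin 3) F[X],
      (γᵀ * Bq ξ q * γ).map alg = (Gq ξ q * γ.map alg)ᵀ * Bs ξ * (Gq ξ q * γ.map alg) := by
    intro ξ q γ
    rw [hmapmul, hmapmul, hmaptr, hBq2, transpose_mul]
    simp only [mul_assoc]
  -- membership of the points
  have hmem : ∀ ξ q v, ∀ γ ∈ GG F (mq ξ q), ∀ l : AdjoinRoot (p v), l ≠ 0 →
      pnt (ρ v) (kk ξ q v γ) (z ξ v (q v)) (w ξ v (q v)) l ∈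
        SmF ((red v (mq ξ q) (γᵀ * Bq ξ q * γ)).map (AdjoinRoot.mk (p v))) := by
    intro ξ q v γ hγ l hl
    rw [hred v _ _ (hOkγ _ _ (hBq1 ξ q) γ hγ) (hmq ξ q)]
    have hA : (g ξ v (q v) * kk ξ q v γ)ᵀ * AA (RatFunc F) * (g ξ v (q v) * kk ξ q v γ) =
        AA (RatFunc F) := by
      rw [hgk]
      calc _ = ((D v (mq ξ q))⁻¹)ᵀ * ((Gq ξ q * γ.map alg)ᵀ * AA (RatFunc F) *
            (Gq ξ q * γ.map alg)) * (D v (mq ξ q))⁻¹ := by
            rw [transpose_mul]; simp only [mul_assoc]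
        _ = _ := by rw [hGγA _ _ γ hγ, hDA]
    have h1 := pnt_mem (hpl v) hl (hKP ξ v (q v)) (hkk ξ q v γ hγ) hA
    have e : (g ξ v (q v) * kk ξ q v γ)ᵀ * (c v • Bs ξ) * (g ξ v (q v) * kk ξ q v γ) =
        c v • (((D v (mq ξ q))⁻¹)ᵀ * (γᵀ * Bq ξ q * γ).map alg * (D v (mq ξ q))⁻¹) := by
      rw [hgk, hconj, transpose_mul, Matrix.mul_smul, Matrix.smul_mul]
      congr 1
      simp only [mul_assoc]
    rwa [e] at h1
  -- the map for fixed `m`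
  have hmain : ∀ m, m ≤ n →
      (Nat.card {x : Σ ξ, (∀ v, Fin (M ξ v)) // mq x.1 x.2 = m} : ℝ) *
        (∏ v, ((Nat.card (AdjoinRoot (p v)) : ℝ) - 1)) * (GG F m).ncard ≤
      ∑ᶠ B ∈ Ok m, ∏ v, ((SmF ((red v m B).map (AdjoinRoot.mk (p v)))).ncard : ℝ) := by
    intro m hm
    have hOf := hOkf m hm
    let Src := {x : Σ ξ, (∀ v, Fin (M ξ v)) // mq x.1 x.2 = m} ×
      ((∀ v, (AdjoinRoot (p v))ˣ) × GG F m)
    let Tgt := Σ B : Ok m, ∀ v, SmF ((red v m B.1).map (AdjoinRoot.mk (p v)))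
    have hfin' : ∀ (v : V) (A : Matrix (Fin 3) (Fin 3) (AdjoinRoot (p v))), Finite (SmF A) := by
      intro v A
      have := hfin v
      infer_instance
    have : Finite (Ok m) := hOf.to_subtype
    have : Finite Tgt := by
      have h1 : ∀ B : Ok m, Finite (∀ v, SmF ((red v m B.1).map (AdjoinRoot.mk (p v)))) := by
        intro B
        infer_instance
      infer_instance
    let Φ : Src → Tgt := fun s =>
      ⟨⟨(s.2.2.1)ᵀ * Bq s.1.1.1 s.1.1.2 * s.2.2.1, hOkγ m _ (by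
        have := hBq1 s.1.1.1 s.1.1.2
        rwa [s.1.2] at this) _ s.2.2.2⟩,
       fun v => ⟨pnt (ρ v) (kk s.1.1.1 s.1.1.2 v s.2.2.1) (z s.1.1.1 v (s.1.1.2 v))
          (w s.1.1.1 v (s.1.1.2 v)) (s.2.1 v), by
        have h0 : (s.2.2.1 : Matrix (Fin 3) (Fin 3) F[X]) ∈ GG F (mq s.1.1.1 s.1.1.2) :=
          (congrArg (fun m => (s.2.2.1 : Matrix (Fin 3) (Fin 3) F[X]) ∈ GG F m) s.1.2).mpr
            s.2.2.2
        have h1 := hmem s.1.1.1 s.1.1.2 v s.2.2.1 h0 (s.2.1 v) (s.2.1 v).ne_zero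
        exact (congrArg (fun m' => pnt (ρ v) (kk s.1.1.1 s.1.1.2 v s.2.2.1)
          (z s.1.1.1 v (s.1.1.2 v)) (w s.1.1.1 v (s.1.1.2 v)) (s.2.1 v) ∈
          SmF ((red v m' ((s.2.2.1)ᵀ * Bq s.1.1.1 s.1.1.2 * s.2.2.1)).map
            (AdjoinRoot.mk (p v)))) s.1.2).mp h1⟩⟩
    have hΦ : Function.Injective Φ := by
      rintro ⟨⟨⟨ξ, q⟩, hm1⟩, l, ⟨γ, hγ⟩⟩ ⟨⟨⟨ξ', q'⟩, hm2⟩, l', ⟨γ', hγ'⟩⟩ h
      have e1 : γᵀ * Bq ξ q * γ = γ'ᵀ * Bq ξ' q' * γ' := congrArg (fun t : Tgt => t.1.1) h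
      have e2 : ∀ v, pnt (ρ v) (kk ξ q v γ) (z ξ v (q v)) (w ξ v (q v)) (l v) =
          pnt (ρ v) (kk ξ' q' v γ') (z ξ' v (q' v)) (w ξ' v (q' v)) (l' v) := fun v =>
        congrArg (fun t : Tgt => ((t.2 v).1 : (Fin 3 → AdjoinRoot (p v)) × AdjoinRoot (p v))) h
      simp only at hm1 hm2
      have hγ1 : γ ∈ GG F (mq ξ q) := by rwa [hm1]
      have hγ2 : γ' ∈ GG F (mq ξ' q') := by rwa [hm2]
      have hdet : ∀ (ξ : T) (q : ∀ v, Fin (M ξ v)), ∀ γ ∈ GG F (mq ξ q),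
          (Gq ξ q * γ.map alg).det = 1 := by
        intro ξ q γ hγ
        rw [det_mul, hGd, hγd _ γ hγ, one_mul]
      have e3 := congrArg (fun A : Matrix (Fin 3) (Fin 3) F[X] => A.map alg) e1
      simp only [hconj] at e3
      obtain ⟨hξ, hG⟩ := hinj ξ ξ' _ _ (hGγA ξ q γ hγ1) (hdet ξ q γ hγ1) (hGγA ξ' q' γ' hγ2)
        (hdet ξ' q' γ' hγ2) e3
      subst hξ
      have hqq : q = q' := by
        funext v
        by_contra hne
        apply hEq ξ v (q v) (q' v) hne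
        have hl0 : (l v : AdjoinRoot (p v)) ≠ 0 := (l v).ne_zero
        have hl0' : (l' v : AdjoinRoot (p v)) ≠ 0 := (l' v).ne_zero
        have h2 := e2 v
        unfold pnt at h2
        have h3 := Prod.mk.inj h2
        refine (hpl v).eqv_of (hkk ξ q v γ hγ1) (hkk ξ q' v γ' hγ2) ?_
          (hKP ξ v (q v)).2.2.2.1 (hKP ξ v (q' v)).2.2.2.1 (hKP ξ v (q v)).2.2.2.2.1
          (hKP ξ v (q' v)).2.2.2.2.1 hl0 hl0' (fun i => ?_) h3.2
        · rw [hgk, hgk, hG, hm1, hm2]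
        · exact congrFun h3.1 i
      subst hqq
      have hγγ : γ = γ' := by
        have hu : IsUnit (Gq ξ q).det := by rw [hGd]; exact isUnit_one
        have h4 : γ.map alg = γ'.map alg := by
          have h5 := congrArg (fun A => (Gq ξ q)⁻¹ * A) hG
          simp only [← mul_assoc, Matrix.nonsing_inv_mul _ hu, one_mul] at h5
          exact h5
        ext1 i j
        exact RatFunc.algebraMap_injective F (congrFun (congrFun h4 i) j)
      subst hγγ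
      have hll : l = l' := by
        funext v
        apply Units.ext
        have h2 := e2 v
        have hmm := hmem ξ q v γ hγ1 1 one_ne_zero
        have hne := hmm.1
        unfold pnt at h2 hne
        have h3 := (Prod.mk.inj h2).1
        by_contra hcon
        apply hne
        simp only [one_smul]
        have h6 : ((l v : AdjoinRoot (p v)) - l' v) •
            (fun i => ρ v (((kk ξ q v γ)⁻¹ *ᵥ z ξ v (q v)) i)) = 0 := by
          rw [sub_smul, h3, sub_self]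
        exact (smul_eq_zero.1 h6).resolve_left (sub_ne_zero.2 hcon)
      subst hll
      rfl
    have hcard := Nat.card_le_card_of_injective Φ hΦ
    have hS : Nat.card Src = Nat.card {x : Σ ξ, (∀ v, Fin (M ξ v)) // mq x.1 x.2 = m} *
        ((∏ v, (Nat.card (AdjoinRoot (p v)) - 1)) * (GG F m).ncard) := by
      rw [Nat.card_prod, Nat.card_prod, Nat.card_pi]
      congr 2
      refine Finset.prod_congr rfl fun v _ => ?_
      have := hfin v
      exact Nat.card_units _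
    have hT : (Nat.card Tgt : ℝ) =
        ∑ᶠ B ∈ Ok m, ∏ v, ((SmF ((red v m B).map (AdjoinRoot.mk (p v)))).ncard : ℝ) := by
      have : Fintype (Ok m) := hOf.fintype
      rw [Nat.card_sigma, finsum_mem_eq_finite_toFinset_sum _ hOf, Nat.cast_sum]
      simp only [Nat.card_pi, Nat.cast_prod]
      exact (Finset.sum_subtype hOf.toFinset (fun B => hOf.mem_toFinset)
        (fun B => ∏ v, ((SmF ((red v m B).map (AdjoinRoot.mk (p v)))).ncard : ℝ))).symm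
    rw [← hT]
    have h1 : (Nat.card Src : ℝ) ≤ Nat.card Tgt := by exact_mod_cast hcard
    refine le_trans (le_of_eq ?_) h1
    rw [hS, Nat.cast_mul, Nat.cast_mul, Nat.cast_prod, mul_assoc]
    congr 2
    refine Finset.prod_congr rfl fun v _ => ?_
    have := hfin v
    rw [Nat.cast_sub Nat.card_pos, Nat.cast_one]
  -- summation
  have hsum : ((∑ ξ, ∏ v, M ξ v : ℕ) : ℝ) = ∑ m ∈ Finset.range (n + 1),
      (Nat.card {x : Σ ξ, (∀ v, Fin (M ξ v)) // mq x.1 x.2 = m} : ℝ) := by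
    have h1 : (∑ ξ, ∏ v, M ξ v) = Fintype.card (Σ ξ, (∀ v, Fin (M ξ v))) := by
      rw [Fintype.card_sigma]
      refine Finset.sum_congr rfl fun ξ _ => ?_
      rw [Fintype.card_pi]
      simp
    rw [h1, ← Finset.card_univ]
    rw [Finset.card_eq_sum_card_fiberwise (f := fun x : Σ ξ, (∀ v, Fin (M ξ v)) => mq x.1 x.2)
      (t := Finset.range (n + 1)) (fun x _ => by
        have h2 : mq x.1 x.2 ≤ n := hmq x.1 x.2
        exact Finset.mem_coe.2 (Finset.mem_range.2 (Nat.lt_succ_of_le h2))), Nat.cast_sum]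
    refine Finset.sum_congr rfl fun m _ => ?_
    rw [Nat.card_eq_fintype_card, Fintype.card_subtype]
  rw [hsum, Finset.sum_mul]
  refine Finset.sum_le_sum fun m hm => ?_
  have hmn : m ≤ n := by
    have := Finset.mem_range.1 hm
    omega
  have hpos : (0 : ℝ) < (GG F m).ncard := by
    have : 0 < (GG F m).ncard := (Set.ncard_pos (hGG m)).2 ⟨1, one_mem_GG F m⟩
    exact_mod_cast this
  rw [le_div_iff₀ hpos]
  exact hmain m hmn

end Pool.AVS.WUW
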