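import Pool.Agent.H91.AVS.Loc

/-!
# The global lattice (board avs, used for WUW)
-/

set_option autoImplicit false

namespace Pool.AVS.WUW

open Polynomial Matrix Pool.AVR Pool.AVS

variable {F : Type} [Field F]

theorem xne : (RatFunc.X : RatFunc F) ≠ 0 := RatFunc.X_ne_zero

theorem dm_det (m : ℕ) : (Dm m : Matrix (Fin 3) (Fin 3) (RatFunc F)).det = 1 := by
  unfold Dm
  rw [det_diagonal, Fin.prod_univ_three]
  simp only [dd, Matrix.cons_val_zero, Matrix.cons_val_one, Matrix.cons_val_two,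
    Matrix.head_cons, Matrix.tail_cons]
  rw [← zpow_add₀ xne, ← zpow_add₀ xne]
  simp

theorem dm_unit (m : ℕ) : IsUnit (Dm m : Matrix (Fin 3) (Fin 3) (RatFunc F)).det := by
  rw [dm_det]; exact isUnit_one

theorem dm_inv (m : ℕ) : (Dm m : Matrix (Fin 3) (Fin 3) (RatFunc F))⁻¹ =
    Matrix.diagonal fun i => (RatFunc.X : RatFunc F) ^ (-dd m i) := by
  apply Matrix.inv_eq_left_inv
  unfold Dm
  rw [Matrix.diagonal_mul_diagonal]
  have : (fun i => (RatFunc.X : RatFunc F) ^ (-dd m i) * RatFunc.X ^ dd m i) = fun _ => 1 := by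
    funext i
    rw [← zpow_add₀ xne]
    simp
  rw [this, Matrix.diagonal_one]

theorem dm_inv_t (m : ℕ) : ((Dm m : Matrix (Fin 3) (Fin 3) (RatFunc F))⁻¹)ᵀ = (Dm m)⁻¹ := by
  rw [dm_inv, Matrix.diagonal_transpose]

theorem dm_conj (m : ℕ) (M : Matrix (Fin 3) (Fin 3) (RatFunc F)) (i j : Fin 3) :
    ((((Dm m : Matrix (Fin 3) (Fin 3) (RatFunc F))⁻¹)ᵀ * M * (Dm m)⁻¹ :
      Matrix (Fin 3) (Fin 3) (RatFunc F)) : Matrix (Fin 3) (Fin 3) (RatFunc F)) i j =
      RatFunc.X ^ (-dd m i - dd m j) * M i j := by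
  rw [dm_inv_t, dm_inv, Matrix.mul_diagonal, Matrix.diagonal_mul, sub_eq_add_neg,
    zpow_add₀ xne]
  ring

theorem dm_AA (m : ℕ) : ((Dm m : Matrix (Fin 3) (Fin 3) (RatFunc F))⁻¹)ᵀ * AA (RatFunc F) *
    (Dm m)⁻¹ = AA (RatFunc F) := by
  ext i j
  rw [dm_conj]
  fin_cases i <;> fin_cases j <;> simp [AA, dd]

theorem ia_map {R S : Type} [CommRing R] [CommRing S] (φ : R →+* S)
    (B : Matrix (Fin 3) (Fin 3) R) : ia (B.map φ) = φ (ia B) := by
  simp only [ia, Matrix.map_apply, map_neg, map_add, map_mul, map_ofNat]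

theorem ib_map {R S : Type} [CommRing R] [CommRing S] (φ : R →+* S)
    (B : Matrix (Fin 3) (Fin 3) R) : ib (B.map φ) = φ (ib B) := by
  simp only [ib, Matrix.map_apply, map_sub, map_add, map_mul, map_pow, map_ofNat]

theorem ic_map {R S : Type} [CommRing R] [CommRing S] (φ : R →+* S)
    (B : Matrix (Fin 3) (Fin 3) R) : ic (B.map φ) = φ (ic B) := by
  unfold ic
  rw [← RingHom.mapMatrix_apply, ← RingHom.map_det]

theorem two_ratfunc (h2 : (2 : F) ≠ 0) : (2 : RatFunc F) ≠ 0 := by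
  intro h
  apply h2
  have h3 : algebraMap F (RatFunc F) 2 = algebraMap F (RatFunc F) 0 := by
    rw [map_ofNat, map_zero]
    exact h
  exact (algebraMap F (RatFunc F)).injective h3

/-- the characteristic polynomial over `F[t]` -/
theorem charPH (hCPH : CPHStmt) (hCHI : CHIStmt)
    (f : F[X] × F[X] × F[X]) (h : (RatFunc F)[X])
    (B : Matrix (Fin 3) (Fin 3) F[X]) (hB : Bᵀ = B)
    (hR : RepH (kf f).1 (kf f).2.1 (kf f).2.2 h (AA (RatFunc F))
        (B.map (algebraMap F[X] (RatFunc F)))) :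
    (AA F[X] * B).charpoly = cubP f := by
  obtain ⟨h1, h2, h3⟩ := hCPH (RatFunc F) _ _ _ h _ hR
  rw [ia_map] at h1
  rw [ib_map] at h2
  rw [ic_map] at h3
  have hinj : Function.Injective (algebraMap F[X] (RatFunc F)) := RatFunc.algebraMap_injective F
  exact ((hCHI F[X] B hB).2 f.1 f.2.1 f.2.2).2 ⟨hinj h1, hinj h2, hinj h3⟩

theorem poly_mem {P : F[X]} (hP : Irreducible P) (p : F[X]) :
    algebraMap F[X] (RatFunc F) p ∈ IP P := by
  show ¬ P ∣ _
  rw [RatFunc.denom_algebraMap]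
  intro h1
  exact hP.not_isUnit (isUnit_of_dvd_one h1)

theorem glob [Finite F] (hGLB : GLBStmt) (hPOL : POLStmt) (hCHH : CHHStmt) (hCPH : CPHStmt)
    (hCHI : CHIStmt) (hTRC : TRCStmt) (hCLE : CLEStmt) (h2 : (2 : F) ≠ 0) (n : ℕ)
    (S : Finset F[X]) (hS : ∀ P ∈ S, P.Monic ∧ Irreducible P) (f : F[X] × F[X] × F[X])
    (hsep : (cubK f).Separable) (h : (RatFunc F)[X]) (u : (Alg f)ˣ)
    (hu : (u : Alg f) = AdjoinRoot.mk (cubK f) h)
    (hne : (QuotientGroup.mk u : (Alg f)ˣ ⧸ Sq f) ≠ 1)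
    (B₀ : Matrix (Fin 3) (Fin 3) F[X]) (hB₀ : B₀ᵀ = B₀)
    (hr : RepH (kf f).1 (kf f).2.1 (kf f).2.2 h (AA (RatFunc F))
        (B₀.map (algebraMap F[X] (RatFunc F))))
    (gP : ∀ P ∈ S, Matrix (Fin 3) (Fin 3) (RatFunc F))
    (hgP : ∀ P hP, (gP P hP).det ≠ 0 ∧ GI (IP P) ((gP P hP)ᵀ * AA (RatFunc F) * gP P hP) ∧
      MI (IP P) ((gP P hP)ᵀ * B₀.map (algebraMap F[X] (RatFunc F)) * gP P hP))
    (gi : Matrix (Fin 3) (Fin 3) (RatFunc F))
    (hgi : gi.det ≠ 0 ∧ GI (Iinf F) (giᵀ * AA (RatFunc F) * gi) ∧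
      MI (Iinf F) (giᵀ * ((RatFunc.X : RatFunc F) ^ (-(2 * n : ℤ)) •
        B₀.map (algebraMap F[X] (RatFunc F))) * gi)) :
    ∃ m ≤ n, ∃ G : Matrix (Fin 3) (Fin 3) (RatFunc F),
      Gᵀ * AA (RatFunc F) * G = AA (RatFunc F) ∧ G.det = 1 ∧
      (∀ P (hP : P ∈ S), ∃ κ, GI (IP P) κ ∧ G = gP P hP * κ) ∧
      (∃ κ, GI (Iinf F) κ ∧ G * (Dm m)⁻¹ = gi * κ) ∧
      ∃ B : Matrix (Fin 3) (Fin 3) F[X], (Bd n m B ∧ (AA F[X] * B).charpoly = cubP f) ∧
        B.map (algebraMap F[X] (RatFunc F)) =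
          Gᵀ * B₀.map (algebraMap F[X] (RatFunc F)) * G := by
  classical
  set alg := algebraMap F[X] (RatFunc F) with halg
  have h2K : (2 : RatFunc F) ≠ 0 := two_ratfunc h2
  have hplP : ∀ P : F[X], Irreducible P →
      ∃ (k : Type) (_ : Field k) (ρ : RatFunc F → k), Plc (IP P) (alg P) ρ := by
    intro P hP
    have : Fact (Irreducible P) := ⟨hP⟩
    exact ⟨_, _, _, plcP P⟩
  have hplI := plcI (F := F)
  -- the first choice of `G`
  obtain ⟨m, G₁, hG1, hG2, hG3, κi, hκi, hG4⟩ := hGLB F h2 (AA (RatFunc F)) 1 S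
    (fun P => if hP : P ∈ S then gP P hP else 1) gi (by
      ext i j
      fin_cases i <;> fin_cases j <;> simp [AA]) one_ne_zero (by rw [AA_det]; simp) hS (by
      intro P hP
      simp only [dif_pos hP]
      exact ⟨(hgP P hP).1, (hgP P hP).2.1⟩) (by
      intro P _ hP _
      obtain ⟨k, _, ρ, hpl⟩ := hplP P hP
      refine ⟨hpl.mi_AA, ?_⟩
      rw [AA_det]
      exact ⟨neg_ne_zero.2 one_ne_zero, hpl.neg_mem _ hpl.one_mem, by
        rw [inv_neg, inv_one]; exact hpl.neg_mem _ hpl.one_mem⟩) hgi.1 hgi.2.1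
  -- adjust the sign
  have hsign : ∃ G : Matrix (Fin 3) (Fin 3) (RatFunc F),
      Gᵀ * AA (RatFunc F) * G = AA (RatFunc F) ∧ G.det = 1 ∧
      (∀ P (hP : P ∈ S), ∃ κ, GI (IP P) κ ∧ G = gP P hP * κ) ∧
      (∀ P : F[X], P.Monic → Irreducible P → P ∉ S → GI (IP P) G) ∧
      (∃ κ, GI (Iinf F) κ ∧ G = gi * κ * Dm m) := by
    have hdet : G₁.det = 1 ∨ G₁.det = -1 := by
      have h3 := congrArg Matrix.det hG1
      rw [det_mul, det_mul, det_transpose, AA_det] at h3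
      have h4 : G₁.det * G₁.det = 1 := by linear_combination -h3
      exact mul_self_eq_one_iff.1 h4
    rcases hdet with hd | hd
    · refine ⟨G₁, hG1, hd, ?_, hG3, κi, hκi, hG4⟩
      intro P hP
      obtain ⟨κ, h3, h4⟩ := hG2 P hP
      simp only [dif_pos hP] at h4
      exact ⟨κ, h3, h4⟩
    · refine ⟨-G₁, ?_, ?_, ?_, ?_, -κi, hplI.gi_neg hκi, ?_⟩
      · rw [transpose_neg, Matrix.neg_mul, Matrix.neg_mul, Matrix.mul_neg, neg_neg, hG1]
      · rw [Matrix.det_neg, hd]; simp [pow_succ]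
      · intro P hP
        obtain ⟨κ, h3, h4⟩ := hG2 P hP
        simp only [dif_pos hP] at h4
        obtain ⟨k, _, ρ, hpl⟩ := hplP P (hS P hP).2
        exact ⟨-κ, hpl.gi_neg h3, by rw [h4, Matrix.mul_neg]⟩
      · intro P h3 h4 h5
        obtain ⟨k, _, ρ, hpl⟩ := hplP P h4
        exact hpl.gi_neg (hG3 P h3 h4 h5)
      · rw [hG4, Matrix.mul_neg, Matrix.neg_mul]
  obtain ⟨G, hGA, hGd, hGP, hGO, κ, hκ, hGi⟩ := hsign
  -- the matrix is integral
  have hint : ∀ P : F[X], P.Monic → Irreducible P → MI (IP P) (Gᵀ * B₀.map alg * G) := by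
    intro P hPm hPi
    obtain ⟨k, _, ρ, hpl⟩ := hplP P hPi
    by_cases hP : P ∈ S
    · obtain ⟨κ', h3, h4⟩ := hGP P hP
      have e : Gᵀ * B₀.map alg * G = κ'ᵀ * ((gP P hP)ᵀ * B₀.map alg * gP P hP) * κ' := by
        rw [h4, transpose_mul]
        simp only [mul_assoc]
      rw [e]
      exact hpl.mi_mul (hpl.mi_mul (mi_transpose h3.1) (hgP P hP).2.2) h3.1
    · have h3 := hGO P hPm hPi hP
      exact hpl.mi_mul (hpl.mi_mul (mi_transpose h3.1) fun i j => poly_mem hPi _) h3.1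
  have hex : ∀ i j, ∃ p : F[X], (Gᵀ * B₀.map alg * G) i j = alg p := fun i j =>
    (hPOL F).1 _ fun P h3 h4 => hint P h3 h4 i j
  choose B hB using hex
  have hBm : Matrix.map (Matrix.of B) alg = Gᵀ * B₀.map alg * G := by
    ext i j
    rw [Matrix.map_apply, Matrix.of_apply, hB]
  set B' : Matrix (Fin 3) (Fin 3) F[X] := Matrix.of B with hB'
  have hBt : B'ᵀ = B' := by
    have h3 : (B'ᵀ).map alg = B'.map alg := by
      have : (B'ᵀ).map alg = (B'.map alg)ᵀ := rfl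
      rw [this, hBm, transpose_mul, transpose_mul, transpose_transpose, ← mul_assoc]
      have : (B₀.map alg)ᵀ = B₀.map alg := by
        have h4 : (B₀.map alg)ᵀ = (B₀ᵀ).map alg := rfl
        rw [h4, hB₀]
      rw [this]
    ext1 i j
    exact RatFunc.algebraMap_injective F (congrFun (congrFun h3 i) j)
  have hGi' : G * (Dm m)⁻¹ = gi * κ := by
    rw [hGi, mul_assoc, Matrix.mul_nonsing_inv _ (dm_unit m), mul_one]
  have hBd : Bd n m B' := by
    rw [(hPOL F).2.2.2 n m B' hBt, hBm]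
    have e : (RatFunc.X : RatFunc F) ^ (-(2 * n : ℤ)) • ((Dm m)⁻¹ * (Gᵀ * B₀.map alg * G) *
        (Dm m)⁻¹) = κᵀ * (giᵀ * ((RatFunc.X : RatFunc F) ^ (-(2 * n : ℤ)) • B₀.map alg) * gi) *
          κ := by
      have e1 : (Dm m)⁻¹ * (Gᵀ * B₀.map alg * G) * (Dm m)⁻¹ =
          (G * (Dm m)⁻¹)ᵀ * B₀.map alg * (G * (Dm m)⁻¹) := by
        rw [transpose_mul, dm_inv_t]
        simp only [mul_assoc]
      rw [e1, hGi', transpose_mul]
      simp only [Matrix.mul_smul, Matrix.smul_mul, mul_assoc]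
    rw [e]
    exact hplI.mi_mul (hplI.mi_mul (mi_transpose hκ.1) hgi.2.2) hκ.1
  have hr' : RepH (kf f).1 (kf f).2.1 (kf f).2.2 h (AA (RatFunc F)) (B'.map alg) := by
    have h3 := hCHH (RatFunc F) _ _ _ h _ _ G hr
    rw [hGA, ← hBm] at h3
    exact h3
  refine ⟨m, ?_, G, hGA, hGd, hGP, ⟨κ, hκ, hGi'⟩, B', ⟨hBd, charPH hCPH hCHI f h B' hBt hr'⟩,
    hBm⟩
  by_contra hmn
  push Not at hmn
  have hB0 : B' 0 0 = 0 := by
    by_contra h0
    have := hBd.2 0 0 h0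
    simp only [dd, Matrix.cons_val_zero] at this
    omega
  have hex : ∃ z : Fin 3 → RatFunc F, z ≠ 0 ∧ bil (AA (RatFunc F)) z z = 0 ∧
      bil (B'.map alg) z z = 0 := by
    refine ⟨![1, 0, 0], ?_, ?_, ?_⟩
    · intro h0
      have := congrFun h0 0
      simp at this
    · simp [bil, AA, Matrix.mulVec, dotProduct, Fin.sum_univ_three]
    · simp [bil, Matrix.mulVec, dotProduct, Fin.sum_univ_three, hB0]
  obtain ⟨s, hs⟩ := (hTRC (RatFunc F) h2K _ _ _ h _ hsep hr').2 hex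
  apply hne
  have h1 : ((1 : (Alg f)ˣ) : Alg f) = AdjoinRoot.mk (cubK f) 1 := by
    rw [map_one]; rfl
  have := (hCLE F f h 1 u 1 hu h1).2 ⟨s, by rw [one_mul]; exact hs⟩
  rw [this]
  rfl

end Pool.AVS.WUW
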