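import Pool.Agent.H14.AVS.S4

/-!
# Places with residue maps (board avs, used for WUW)
-/

set_option autoImplicit false

namespace Pool.AVS.WUW

open Polynomial Matrix Pool.AVR Pool.AVS

/-- A place of a field `K` with its residue map. -/
structure Plc {K : Type} [Field K] (I : Set K) (ϖ : K) {k : Type} [Field k] (ρ : K → k) :
    Prop where
  one_mem : (1 : K) ∈ I
  add_mem : ∀ x ∈ I, ∀ y ∈ I, x + y ∈ I
  mul_mem : ∀ x ∈ I, ∀ y ∈ I, x * y ∈ I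
  neg_mem : ∀ x ∈ I, -x ∈ I
  map_one : ρ 1 = 1
  map_add : ∀ x ∈ I, ∀ y ∈ I, ρ (x + y) = ρ x + ρ y
  map_mul : ∀ x ∈ I, ∀ y ∈ I, ρ (x * y) = ρ x * ρ y
  ker : ∀ x ∈ I, (ρ x = 0 ↔ x / ϖ ∈ I)
  inv_mem : ∀ x ∈ I, x / ϖ ∉ I → x⁻¹ ∈ I
  surj : ∀ c : k, ∃ x ∈ I, ρ x = c

section place

variable {K : Type} [Field K] {I : Set K} {ϖ : K} {k : Type} [Field k] {ρ : K → k}

theorem Plc.zero_mem (h : Plc I ϖ ρ) : (0 : K) ∈ I := by
  have := h.add_mem 1 h.one_mem (-1) (h.neg_mem 1 h.one_mem)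
  simpa using this

theorem Plc.map_zero (h : Plc I ϖ ρ) : ρ 0 = 0 := by
  rw [h.ker 0 h.zero_mem]; simpa using h.zero_mem

theorem Plc.sub_mem (h : Plc I ϖ ρ) {x y : K} (hx : x ∈ I) (hy : y ∈ I) : x - y ∈ I := by
  rw [sub_eq_add_neg]; exact h.add_mem _ hx _ (h.neg_mem _ hy)

theorem Plc.map_neg (h : Plc I ϖ ρ) {x : K} (hx : x ∈ I) : ρ (-x) = -ρ x := by
  have := h.map_add x hx (-x) (h.neg_mem x hx)
  rw [add_neg_cancel, h.map_zero] at this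
  exact (neg_eq_of_add_eq_zero_right this.symm).symm

theorem Plc.map_sub (h : Plc I ϖ ρ) {x y : K} (hx : x ∈ I) (hy : y ∈ I) :
    ρ (x - y) = ρ x - ρ y := by
  rw [sub_eq_add_neg, h.map_add _ hx _ (h.neg_mem _ hy), h.map_neg hy, sub_eq_add_neg]

/-- The ring of the place. -/
def Plc.sub (h : Plc I ϖ ρ) : Subring K where
  carrier := I
  zero_mem' := h.zero_mem
  one_mem' := h.one_mem
  add_mem' := fun {x y} hx hy => h.add_mem x hx y hy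
  mul_mem' := fun {x y} hx hy => h.mul_mem x hx y hy
  neg_mem' := fun {x} hx => h.neg_mem x hx

theorem Plc.div_mem (h : Plc I ϖ ρ) {x : K} (hx : x ∈ I) (h0 : ρ x ≠ 0) : x⁻¹ ∈ I :=
  h.inv_mem x hx fun h1 => h0 ((h.ker x hx).2 h1)

theorem Plc.ne_zero (h : Plc I ϖ ρ) {x : K} (h0 : ρ x ≠ 0) : x ≠ 0 := by
  rintro rfl; exact h0 h.map_zero

theorem Plc.mul_div_mem (h : Plc I ϖ ρ) {x y : K} (hx : x ∈ I) (hy : y / ϖ ∈ I) :
    x * y / ϖ ∈ I := by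
  rw [mul_div_assoc]; exact h.mul_mem _ hx _ hy

/-! ### Matrices -/

theorem Plc.mi_mul (h : Plc I ϖ ρ) {M N : Matrix (Fin 3) (Fin 3) K} (hM : MI I M)
    (hN : MI I N) : MI I (M * N) := by
  intro i j
  rw [Matrix.mul_apply, Fin.sum_univ_three]
  exact h.add_mem _ (h.add_mem _ (h.mul_mem _ (hM _ _) _ (hN _ _)) _
    (h.mul_mem _ (hM _ _) _ (hN _ _))) _ (h.mul_mem _ (hM _ _) _ (hN _ _))

theorem Plc.map_mulM (h : Plc I ϖ ρ) {M N : Matrix (Fin 3) (Fin 3) K} (hM : MI I M)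
    (hN : MI I N) : (M * N).map ρ = M.map ρ * N.map ρ := by
  ext i j
  simp only [Matrix.map_apply, Matrix.mul_apply, Fin.sum_univ_three]
  rw [h.map_add _ (h.add_mem _ (h.mul_mem _ (hM _ _) _ (hN _ _)) _
    (h.mul_mem _ (hM _ _) _ (hN _ _))) _ (h.mul_mem _ (hM _ _) _ (hN _ _)),
    h.map_add _ (h.mul_mem _ (hM _ _) _ (hN _ _)) _ (h.mul_mem _ (hM _ _) _ (hN _ _)),
    h.map_mul _ (hM _ _) _ (hN _ _), h.map_mul _ (hM _ _) _ (hN _ _),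
    h.map_mul _ (hM _ _) _ (hN _ _)]

theorem mi_transpose {M : Matrix (Fin 3) (Fin 3) K} (hM : MI I M) : MI I Mᵀ :=
  fun i j => hM j i

theorem Plc.mi_one (h : Plc I ϖ ρ) : MI I (1 : Matrix (Fin 3) (Fin 3) K) := by
  intro i j
  rw [Matrix.one_apply]
  split_ifs
  · exact h.one_mem
  · exact h.zero_mem

theorem Plc.mi_AA (h : Plc I ϖ ρ) : MI I (AA K) := by
  intro i j
  fin_cases i <;> fin_cases j <;> simp [AA, h.zero_mem, h.one_mem]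

theorem Plc.map_AA (h : Plc I ϖ ρ) : (AA K).map ρ = AA k := by
  ext i j
  fin_cases i <;> fin_cases j <;> simp [AA, h.map_zero, h.map_one]

theorem Plc.mem_iff (h : Plc I ϖ ρ) (M : Matrix (Fin 3) (Fin 3) K) (hM : MI I M) :
    ∃ M' : Matrix (Fin 3) (Fin 3) h.sub, M = M'.map h.sub.subtype :=
  ⟨fun i j => ⟨M i j, hM i j⟩, by ext i j; rfl⟩

theorem Plc.det_mem (h : Plc I ϖ ρ) {M : Matrix (Fin 3) (Fin 3) K} (hM : MI I M) :
    M.det ∈ I := by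
  obtain ⟨M', rfl⟩ := h.mem_iff M hM
  have : (M'.map h.sub.subtype).det = h.sub.subtype M'.det := by
    rw [RingHom.map_det]; rfl
  rw [this]
  exact M'.det.2

theorem Plc.adj_mem (h : Plc I ϖ ρ) {M : Matrix (Fin 3) (Fin 3) K} (hM : MI I M) :
    MI I M.adjugate := by
  obtain ⟨M', rfl⟩ := h.mem_iff M hM
  intro i j
  have : (M'.map h.sub.subtype).adjugate = (M'.adjugate).map h.sub.subtype := by
    have := RingHom.map_adjugate h.sub.subtype M'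
    rw [RingHom.mapMatrix_apply, RingHom.mapMatrix_apply] at this
    exact this.symm
  rw [this]
  exact (M'.adjugate i j).2

theorem Plc.gi_mul (h : Plc I ϖ ρ) {M N : Matrix (Fin 3) (Fin 3) K} (hM : GI I M)
    (hN : GI I N) : GI I (M * N) := by
  refine ⟨h.mi_mul hM.1 hN.1, ?_, ?_, ?_⟩
  · rw [det_mul]; exact mul_ne_zero hM.2.1 hN.2.1
  · rw [det_mul]; exact h.mul_mem _ hM.2.2.1 _ hN.2.2.1
  · rw [det_mul, mul_inv]; exact h.mul_mem _ hM.2.2.2 _ hN.2.2.2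

theorem Plc.mi_inv (h : Plc I ϖ ρ) {M : Matrix (Fin 3) (Fin 3) K} (hM : GI I M) :
    MI I M⁻¹ := by
  intro i j
  rw [Matrix.inv_def, Matrix.smul_apply, smul_eq_mul, Ring.inverse_eq_inv']
  exact h.mul_mem _ hM.2.2.2 _ (h.adj_mem hM.1 i j)

theorem gi_unit {M : Matrix (Fin 3) (Fin 3) K} (hM : GI I M) : IsUnit M.det :=
  isUnit_iff_ne_zero.2 hM.2.1

theorem Plc.gi_inv (h : Plc I ϖ ρ) {M : Matrix (Fin 3) (Fin 3) K} (hM : GI I M) :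
    GI I M⁻¹ := by
  refine ⟨h.mi_inv hM, ?_⟩
  have hd : M⁻¹.det = M.det⁻¹ := by rw [Matrix.det_nonsing_inv, Ring.inverse_eq_inv']
  rw [hd]
  exact ⟨inv_ne_zero hM.2.1, hM.2.2.2, by rw [inv_inv]; exact hM.2.2.1⟩

theorem Plc.gi_neg (h : Plc I ϖ ρ) {M : Matrix (Fin 3) (Fin 3) K} (hM : GI I M) :
    GI I (-M) := by
  refine ⟨fun i j => h.neg_mem _ (hM.1 i j), ?_⟩
  have hd : (-M).det = -M.det := by
    rw [Matrix.det_neg]; simp [pow_succ]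
  rw [hd]
  exact ⟨neg_ne_zero.2 hM.2.1, h.neg_mem _ hM.2.2.1, by
    rw [inv_neg]; exact h.neg_mem _ hM.2.2.2⟩

theorem Plc.gi_one (h : Plc I ϖ ρ) : GI I (1 : Matrix (Fin 3) (Fin 3) K) :=
  ⟨h.mi_one, by rw [det_one]; exact one_ne_zero, by rw [det_one]; exact h.one_mem, by
    rw [det_one, inv_one]; exact h.one_mem⟩

theorem Plc.vec_mem (h : Plc I ϖ ρ) {M : Matrix (Fin 3) (Fin 3) K} {z : Fin 3 → K}
    (hM : MI I M) (hz : ∀ i, z i ∈ I) (i : Fin 3) : (M *ᵥ z) i ∈ I := by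
  rw [Matrix.mulVec, dotProduct, Fin.sum_univ_three]
  exact h.add_mem _ (h.add_mem _ (h.mul_mem _ (hM _ _) _ (hz _)) _
    (h.mul_mem _ (hM _ _) _ (hz _))) _ (h.mul_mem _ (hM _ _) _ (hz _))

theorem Plc.vec_div_mem (h : Plc I ϖ ρ) {M : Matrix (Fin 3) (Fin 3) K} {z : Fin 3 → K}
    (hM : MI I M) (hz : ∀ i, z i / ϖ ∈ I) (i : Fin 3) : (M *ᵥ z) i / ϖ ∈ I := by
  have : (M *ᵥ z) i / ϖ = (M *ᵥ fun i => z i / ϖ) i := by
    simp only [Matrix.mulVec, dotProduct, Fin.sum_univ_three]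
    ring
  rw [this]
  exact h.vec_mem hM hz i

theorem Plc.map_vec (h : Plc I ϖ ρ) {M : Matrix (Fin 3) (Fin 3) K} {z : Fin 3 → K}
    (hM : MI I M) (hz : ∀ i, z i ∈ I) (i : Fin 3) :
    ρ ((M *ᵥ z) i) = (M.map ρ *ᵥ fun i => ρ (z i)) i := by
  simp only [Matrix.mulVec, dotProduct, Fin.sum_univ_three, Matrix.map_apply]
  rw [h.map_add _ (h.add_mem _ (h.mul_mem _ (hM _ _) _ (hz _)) _
    (h.mul_mem _ (hM _ _) _ (hz _))) _ (h.mul_mem _ (hM _ _) _ (hz _)),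
    h.map_add _ (h.mul_mem _ (hM _ _) _ (hz _)) _ (h.mul_mem _ (hM _ _) _ (hz _)),
    h.map_mul _ (hM _ _) _ (hz _), h.map_mul _ (hM _ _) _ (hz _),
    h.map_mul _ (hM _ _) _ (hz _)]

theorem Plc.bil_mem (h : Plc I ϖ ρ) {M : Matrix (Fin 3) (Fin 3) K} {u v : Fin 3 → K}
    (hM : MI I M) (hu : ∀ i, u i ∈ I) (hv : ∀ i, v i ∈ I) : bil M u v ∈ I := by
  unfold bil
  rw [dotProduct, Fin.sum_univ_three]
  exact h.add_mem _ (h.add_mem _ (h.mul_mem _ (hu _) _ (h.vec_mem hM hv _)) _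
    (h.mul_mem _ (hu _) _ (h.vec_mem hM hv _))) _ (h.mul_mem _ (hu _) _ (h.vec_mem hM hv _))

theorem Plc.map_bil (h : Plc I ϖ ρ) {M : Matrix (Fin 3) (Fin 3) K} {u v : Fin 3 → K}
    (hM : MI I M) (hu : ∀ i, u i ∈ I) (hv : ∀ i, v i ∈ I) :
    ρ (bil M u v) = bil (M.map ρ) (fun i => ρ (u i)) (fun i => ρ (v i)) := by
  unfold bil
  rw [dotProduct, dotProduct, Fin.sum_univ_three, Fin.sum_univ_three]
  have hm := fun i => h.vec_mem hM hv i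
  rw [h.map_add _ (h.add_mem _ (h.mul_mem _ (hu _) _ (hm _)) _
    (h.mul_mem _ (hu _) _ (hm _))) _ (h.mul_mem _ (hu _) _ (hm _)),
    h.map_add _ (h.mul_mem _ (hu _) _ (hm _)) _ (h.mul_mem _ (hu _) _ (hm _)),
    h.map_mul _ (hu _) _ (hm _), h.map_mul _ (hu _) _ (hm _),
    h.map_mul _ (hu _) _ (hm _), h.map_vec hM hv, h.map_vec hM hv, h.map_vec hM hv]

theorem bil_conj {K : Type} [Field K] (M κ : Matrix (Fin 3) (Fin 3) K) (u v : Fin 3 → K) :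
    bil (κᵀ * M * κ) u v = bil M (κ *ᵥ u) (κ *ᵥ v) := by
  unfold bil
  rw [← Matrix.mulVec_mulVec, ← Matrix.mulVec_mulVec, Matrix.dotProduct_mulVec,
    Matrix.vecMul_transpose]

/-- Change of the basis of the lattice. -/
theorem Plc.smo_change (h : Plc I ϖ ρ) {G B κ : Matrix (Fin 3) (Fin 3) K} {z : Fin 3 → K}
    {w : K} (hκ : GI I κ) (hs : Smo I ϖ G B z w) :
    Smo I ϖ (κᵀ * G * κ) (κᵀ * B * κ) (κ⁻¹ *ᵥ z) w := by
  obtain ⟨h1, h2, ⟨i0, h3⟩, h4, h5, h6⟩ := hs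
  have hκi := h.mi_inv hκ
  have hcan : κ *ᵥ (κ⁻¹ *ᵥ z) = z := by
    rw [Matrix.mulVec_mulVec, Matrix.mul_nonsing_inv _ (gi_unit hκ), Matrix.one_mulVec]
  refine ⟨h.vec_mem hκi h1, h2, ?_, ?_, ?_, ?_⟩
  · by_contra hc
    push Not at hc
    apply h3
    rw [← hcan]
    exact h.vec_div_mem hκ.1 hc i0
  · rw [bil_conj, hcan]; exact h4
  · rw [bil_conj, hcan]; exact h5
  · rintro ⟨h7, μ, hμ, h8⟩
    refine h6 ⟨h7, μ, hμ, ?_⟩
    have hκt : GI I κᵀ := ⟨mi_transpose hκ.1, by rw [det_transpose]; exact hκ.2⟩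
    have key : ∀ i, ((κᵀ)⁻¹ *ᵥ fun j => ((κᵀ * B * κ) *ᵥ (κ⁻¹ *ᵥ z)) j -
        μ * ((κᵀ * G * κ) *ᵥ (κ⁻¹ *ᵥ z)) j) i = (B *ᵥ z) i - μ * (G *ᵥ z) i := by
      intro i
      have e1 : ∀ M : Matrix (Fin 3) (Fin 3) K,
          (κᵀ * M * κ) *ᵥ (κ⁻¹ *ᵥ z) = κᵀ *ᵥ (M *ᵥ z) := by
        intro M
        rw [← Matrix.mulVec_mulVec, hcan, ← Matrix.mulVec_mulVec]
      have e2 : (fun j => ((κᵀ * B * κ) *ᵥ (κ⁻¹ *ᵥ z)) j -
        μ * ((κᵀ * G * κ) *ᵥ (κ⁻¹ *ᵥ z)) j) = κᵀ *ᵥ (B *ᵥ z - μ • (G *ᵥ z)) := by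
        rw [e1, e1, Matrix.mulVec_sub, Matrix.mulVec_smul]
        funext j
        simp
      rw [e2, Matrix.mulVec_mulVec, Matrix.nonsing_inv_mul _ (gi_unit hκt), Matrix.one_mulVec]
      simp
    intro i
    rw [← key i]
    exact h.vec_div_mem (h.mi_inv hκt) h8 i

/-- Reduction of a smooth point. -/
theorem Plc.smo_red (h : Plc I ϖ ρ) {B : Matrix (Fin 3) (Fin 3) K} {z : Fin 3 → K}
    {w : K} (hB : MI I B) (hs : Smo I ϖ (AA K) B z w) :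
    ((fun i => ρ (z i)), ρ w) ∈ SmF (B.map ρ) := by
  obtain ⟨h1, h2, ⟨i0, h3⟩, h4, h5, h6⟩ := hs
  have hA := h.mi_AA
  refine ⟨?_, ?_, ?_, ?_⟩
  · intro hc
    exact h3 ((h.ker _ (h1 i0)).1 (congrFun hc i0))
  · show bil (AA k) (fun i => ρ (z i)) (fun i => ρ (z i)) = 0
    rw [← h.map_AA, ← h.map_bil hA h1 h1]
    exact (h.ker _ (h.bil_mem hA h1 h1)).2 h4
  · show ρ w ^ 2 + bil (B.map ρ) (fun i => ρ (z i)) (fun i => ρ (z i)) = 0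
    rw [← h.map_bil hB h1 h1, sq, ← h.map_mul _ h2 _ h2,
      ← h.map_add _ (h.mul_mem _ h2 _ h2) _ (h.bil_mem hB h1 h1)]
    have : w * w + bil B z z = w ^ 2 + bil B z z := by ring
    rw [this]
    refine (h.ker _ ?_).2 h5
    rw [← this]
    exact h.add_mem _ (h.mul_mem _ h2 _ h2) _ (h.bil_mem hB h1 h1)
  · rintro ⟨h7, μ, h8⟩
    have h7' : ρ w = 0 := h7
    obtain ⟨μ', hμ', rfl⟩ := h.surj μ
    refine h6 ⟨(h.ker _ h2).1 h7', μ', hμ', fun i => ?_⟩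
    have hmem : (B *ᵥ z) i - μ' * (AA K *ᵥ z) i ∈ I :=
      h.sub_mem (h.vec_mem hB h1 i) (h.mul_mem _ hμ' _ (h.vec_mem hA h1 i))
    refine (h.ker _ hmem).1 ?_
    rw [h.map_sub (h.vec_mem hB h1 i) (h.mul_mem _ hμ' _ (h.vec_mem hA h1 i)),
      h.map_mul _ hμ' _ (h.vec_mem hA h1 i), h.map_vec hB h1, h.map_vec hA h1, h.map_AA]
    have h9 := congrFun h8 i
    rw [Pi.smul_apply, smul_eq_mul] at h9
    exact sub_eq_zero.2 h9

/-- The reduced points determine the lattice. -/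
theorem Plc.eqv_of (h : Plc I ϖ ρ) {g g' κ κ' : Matrix (Fin 3) (Fin 3) K} {z z' : Fin 3 → K}
    {w w' : K} {l l' : k} (hκ : GI I κ) (hκ' : GI I κ') (hg : g * κ = g' * κ')
    (hz : ∀ i, z i ∈ I) (hz' : ∀ i, z' i ∈ I) (hw : w ∈ I) (hw' : w' ∈ I) (hl : l ≠ 0)
    (hl' : l' ≠ 0) (h1 : ∀ i, l * ρ ((κ⁻¹ *ᵥ z) i) = l' * ρ ((κ'⁻¹ *ᵥ z') i))
    (h2 : l * ρ w = l' * ρ w') : Eqv I ϖ g z w g' z' w' := by
  obtain ⟨t, ht, hρt⟩ := h.surj (l / l')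
  have ht0 : ρ t ≠ 0 := by rw [hρt]; exact div_ne_zero hl hl'
  have hzi := h.vec_mem (h.mi_inv hκ) hz
  have hzi' := h.vec_mem (h.mi_inv hκ') hz'
  refine ⟨κ * κ'⁻¹, h.gi_mul hκ (h.gi_inv hκ'), ?_, t, ⟨h.ne_zero ht0, ht, h.div_mem ht ht0⟩,
    ?_, ?_⟩
  · rw [← mul_assoc, hg, mul_assoc, Matrix.mul_nonsing_inv _ (gi_unit hκ'), mul_one]
  · intro i
    have e1 : ((κ * κ'⁻¹) *ᵥ z') i - t * z i =
        (κ *ᵥ fun j => (κ'⁻¹ *ᵥ z') j - t * (κ⁻¹ *ᵥ z) j) i := by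
      have e2 : (fun j => (κ'⁻¹ *ᵥ z') j - t * (κ⁻¹ *ᵥ z) j) =
          κ'⁻¹ *ᵥ z' - t • (κ⁻¹ *ᵥ z) := by funext j; simp
      rw [e2, Matrix.mulVec_sub, Matrix.mulVec_smul, Matrix.mulVec_mulVec, Matrix.mulVec_mulVec,
        Matrix.mul_nonsing_inv _ (gi_unit hκ), Matrix.one_mulVec]
      simp
    rw [e1]
    refine h.vec_div_mem hκ.1 (fun j => ?_) i
    have hmem : (κ'⁻¹ *ᵥ z') j - t * (κ⁻¹ *ᵥ z) j ∈ I :=
      h.sub_mem (hzi' j) (h.mul_mem _ ht _ (hzi j))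
    refine (h.ker _ hmem).1 ?_
    rw [h.map_sub (hzi' j) (h.mul_mem _ ht _ (hzi j)), h.map_mul _ ht _ (hzi j), hρt]
    have := h1 j
    field_simp
    linear_combination -this
  · have hmem : w' - t * w ∈ I := h.sub_mem hw' (h.mul_mem _ ht _ hw)
    refine (h.ker _ hmem).1 ?_
    rw [h.map_sub hw' (h.mul_mem _ ht _ hw), h.map_mul _ ht _ hw, hρt]
    field_simp
    linear_combination -h2

theorem smF_smul {k : Type} [Field k] {B : Matrix (Fin 3) (Fin 3) k} {p : (Fin 3 → k) × k}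
    (hp : p ∈ SmF B) {l : k} (hl : l ≠ 0) : (l • p.1, l * p.2) ∈ SmF B := by
  obtain ⟨h1, h2, h3, h4⟩ := hp
  have hb : ∀ M : Matrix (Fin 3) (Fin 3) k, bil M (l • p.1) (l • p.1) = l ^ 2 * bil M p.1 p.1 := by
    intro M
    unfold bil
    rw [Matrix.mulVec_smul, smul_dotProduct, dotProduct_smul, smul_eq_mul, smul_eq_mul]
    ring
  refine ⟨smul_ne_zero hl h1, ?_, ?_, ?_⟩
  · rw [hb, h2, mul_zero]
  · show (l * p.2) ^ 2 + bil B (l • p.1) (l • p.1) = 0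
    rw [hb]
    linear_combination l ^ 2 * h3
  · rintro ⟨h5, μ, h6⟩
    refine h4 ⟨(mul_eq_zero.1 h5).resolve_left hl, μ, ?_⟩
    have h7 : l • (B *ᵥ p.1) = l • (μ • (AA k *ᵥ p.1)) := by
      rw [← Matrix.mulVec_smul, h6, Matrix.mulVec_smul, smul_comm]
    exact smul_right_injective _ hl h7

end place

end Pool.AVS.WUW
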