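import Pool.Agent.H91.AVS.Glob
import Pool.Agent.H91.AVS.Core

/-!
# The places of `S` and infinity as one family (board avs, used for WUW)
-/

set_option autoImplicit false

namespace Pool.AVS.WUW

open Polynomial Matrix Pool.AVR Pool.AVS

variable {F : Type} [Field F]

/-- The places. -/
abbrev Pl (S : Finset F[X]) : Type := Option {P // P ∈ S}

/-- The polynomial of the place. -/
noncomputable def pv (S : Finset F[X]) : Pl S → F[X]
  | none => X
  | some P => P.1

theorem pv_fact {S : Finset F[X]} (hS : ∀ P ∈ S, P.Monic ∧ Irreducible P) (v : Pl S) :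
    Fact (Irreducible (pv S v)) := by
  rcases v with _ | P
  · exact ⟨irreducible_X⟩
  · exact ⟨(hS P.1 P.2).2⟩

theorem pv_monic {S : Finset F[X]} (hS : ∀ P ∈ S, P.Monic ∧ Irreducible P) (v : Pl S) :
    (pv S v).Monic := by
  rcases v with _ | P
  · exact monic_X
  · exact (hS P.1 P.2).1

/-- The local ring. -/
def Iv (S : Finset F[X]) : Pl S → Set (RatFunc F)
  | none => Iinf F
  | some P => IP P.1

/-- The uniformizer. -/
noncomputable def piv (S : Finset F[X]) : Pl S → RatFunc F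
  | none => (RatFunc.X)⁻¹
  | some P => algebraMap F[X] (RatFunc F) P.1

/-- The residue map. -/
noncomputable def rhov {S : Finset F[X]} (hS : ∀ P ∈ S, P.Monic ∧ Irreducible P) :
    ∀ v : Pl S, RatFunc F → AdjoinRoot (pv S v)
  | none => rI
  | some P => @rP F _ P.1 ⟨(hS P.1 P.2).2⟩

theorem plcv {S : Finset F[X]} (hS : ∀ P ∈ S, P.Monic ∧ Irreducible P) (v : Pl S) :
    @Plc (RatFunc F) _ (Iv S v) (piv S v) (AdjoinRoot (pv S v))
      (@AdjoinRoot.instField F _ (pv S v) (pv_fact hS v)) (rhov hS v) := by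
  rcases v with _ | P
  · exact plcI
  · exact @plcP F _ P.1 ⟨(hS P.1 P.2).2⟩

/-- The diagonal matrix. -/
noncomputable def Dv (S : Finset F[X]) : Pl S → ℕ → Matrix (Fin 3) (Fin 3) (RatFunc F)
  | none => fun m => Dm m
  | some _ => fun _ => 1

/-- The scalar. -/
noncomputable def cv (S : Finset F[X]) (n : ℕ) : Pl S → RatFunc F
  | none => (RatFunc.X : RatFunc F) ^ (-(2 * n : ℤ))
  | some _ => 1

/-- The polynomial matrix reduced at the place. -/
noncomputable def redv (S : Finset F[X]) (n : ℕ) : Pl S → ℕ → Matrix (Fin 3) (Fin 3) F[X] →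
    Matrix (Fin 3) (Fin 3) F[X]
  | none => fun m B => Binf n m B
  | some _ => fun _ B => B

theorem Dv_unit (S : Finset F[X]) (v : Pl S) (m : ℕ) : IsUnit (Dv S v m).det := by
  rcases v with _ | P
  · exact dm_unit m
  · show IsUnit (1 : Matrix (Fin 3) (Fin 3) (RatFunc F)).det
    rw [det_one]; exact isUnit_one

theorem Dv_AA (S : Finset F[X]) (v : Pl S) (m : ℕ) :
    ((Dv S v m)⁻¹)ᵀ * AA (RatFunc F) * (Dv S v m)⁻¹ = AA (RatFunc F) := by
  rcases v with _ | P
  · exact dm_AA m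
  · show ((1 : Matrix (Fin 3) (Fin 3) (RatFunc F))⁻¹)ᵀ * AA (RatFunc F) * 1⁻¹ = AA (RatFunc F)
    simp

theorem redv_map {S : Finset F[X]} (hS : ∀ P ∈ S, P.Monic ∧ Irreducible P) (n : ℕ) (v : Pl S)
    (m : ℕ) (hm : m ≤ n) (B : Matrix (Fin 3) (Fin 3) F[X]) (hB : Bd n m B) :
    (redv S n v m B).map (AdjoinRoot.mk (pv S v)) =
      (cv S n v • (((Dv S v m)⁻¹)ᵀ * B.map (algebraMap F[X] (RatFunc F)) * (Dv S v m)⁻¹)).map
        (rhov hS v) := by
  rcases v with _ | P
  · show (Binf n m B).map (AdjoinRoot.mk X) =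
      ((RatFunc.X : RatFunc F) ^ (-(2 * n : ℤ)) • (((Dm m)⁻¹)ᵀ *
        B.map (algebraMap F[X] (RatFunc F)) * (Dm m)⁻¹)).map rI
    ext1 i j
    rw [Matrix.map_apply, Matrix.map_apply, Matrix.smul_apply, dm_conj, Matrix.map_apply]
    show AdjoinRoot.mk X ((B i j).reflect (2 * (n : ℤ) + dd m i + dd m j).toNat) = _
    have hnn : 0 ≤ 2 * (n : ℤ) + dd m i + dd m j := by
      fin_cases i <;> fin_cases j <;> simp [dd] <;> omega
    have hdeg : (B i j).natDegree ≤ (2 * (n : ℤ) + dd m i + dd m j).toNat := by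
      by_cases h0 : B i j = 0
      · rw [h0]; simp
      · have := hB.2 i j h0
        omega
    rw [← (rI_div _ _ hdeg).2]
    congr 1
    have e : (RatFunc.X : RatFunc F) ^ ((2 * (n : ℤ) + dd m i + dd m j).toNat) =
        (RatFunc.X : RatFunc F) ^ (2 * (n : ℤ) + dd m i + dd m j) := by
      conv_rhs => rw [← Int.toNat_of_nonneg hnn]
      rw [zpow_natCast]
    rw [e, smul_eq_mul, ← mul_assoc, ← zpow_add₀ xne, div_eq_mul_inv, ← _root_.zpow_neg, mul_comm]
    congr 2
    ring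
  · show B.map (AdjoinRoot.mk P.1) = ((1 : RatFunc F) •
      (((1 : Matrix (Fin 3) (Fin 3) (RatFunc F))⁻¹)ᵀ * B.map (algebraMap F[X] (RatFunc F)) *
        (1 : Matrix (Fin 3) (Fin 3) (RatFunc F))⁻¹)).map (@rP F _ P.1 ⟨(hS P.1 P.2).2⟩)
    rw [inv_one, transpose_one, one_mul, mul_one, one_smul]
    ext1 i j
    rw [Matrix.map_apply, Matrix.map_apply, Matrix.map_apply]
    exact (@rP_poly F _ P.1 ⟨(hS P.1 P.2).2⟩ _).symm

theorem map_det' {γ : Matrix (Fin 3) (Fin 3) F[X]} (h : γ.det = 1) :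
    (γ.map (algebraMap F[X] (RatFunc F))).det = 1 := by
  have h1 := RingHom.map_det (algebraMap F[X] (RatFunc F)) γ
  rw [RingHom.mapMatrix_apply] at h1
  rw [← h1, h, map_one]

theorem Dv_GG {S : Finset F[X]} (hS : ∀ P ∈ S, P.Monic ∧ Irreducible P) (v : Pl S)
    (m : ℕ) (γ : Matrix (Fin 3) (Fin 3) F[X]) (hγ : γ ∈ GG F m) :
    GI (Iv S v) (Dv S v m * γ.map (algebraMap F[X] (RatFunc F)) * (Dv S v m)⁻¹) := by
  have hdet : ∀ D : Matrix (Fin 3) (Fin 3) (RatFunc F), IsUnit D.det →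
      (D * γ.map (algebraMap F[X] (RatFunc F)) * D⁻¹).det = 1 := by
    intro D hD
    rw [det_mul, det_mul, map_det' hγ.2.1, mul_one, ← det_mul, Matrix.mul_nonsing_inv _ hD,
      det_one]
  have hUI : ∀ I : Set (RatFunc F), (1 : RatFunc F) ∈ I → UI I 1 := fun I h =>
    ⟨one_ne_zero, h, by rw [inv_one]; exact h⟩
  rcases v with _ | P
  · show GI (Iinf F) (Dm m * γ.map (algebraMap F[X] (RatFunc F)) * (Dm m)⁻¹)
    refine ⟨fun i j => ?_, ?_⟩
    · rw [dm_inv]
      unfold Dm
      rw [Matrix.mul_diagonal, Matrix.diagonal_mul, Matrix.map_apply]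
      show (RatFunc.X ^ dd m i * algebraMap F[X] (RatFunc F) (γ i j) *
        RatFunc.X ^ (-dd m j)).intDegree ≤ 0
      by_cases h0 : γ i j = 0
      · rw [h0, map_zero, mul_zero, zero_mul, RatFunc.intDegree_zero]
      · have h1 := hγ.2.2 i j h0
        have h2 : algebraMap F[X] (RatFunc F) (γ i j) ≠ 0 :=
          (map_ne_zero_iff _ (RatFunc.algebraMap_injective F)).2 h0
        have hz : ∀ k : ℤ, ((RatFunc.X : RatFunc F) ^ k).intDegree = k := by
          intro k
          have hn : ∀ l : ℕ, ((RatFunc.X : RatFunc F) ^ l).intDegree = l := by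
            intro l
            have : (RatFunc.X : RatFunc F) ^ l = algebraMap F[X] (RatFunc F) (X ^ l) := by
              rw [map_pow, RatFunc.algebraMap_X]
            rw [this, RatFunc.intDegree_polynomial, natDegree_X_pow]
          obtain ⟨l, rfl | rfl⟩ := k.eq_nat_or_neg
          · rw [zpow_natCast, hn]
          · rw [_root_.zpow_neg, zpow_natCast, RatFunc.intDegree_inv, hn]
        rw [RatFunc.intDegree_mul (mul_ne_zero (zpow_ne_zero _ xne) h2) (zpow_ne_zero _ xne),
          RatFunc.intDegree_mul (zpow_ne_zero _ xne) h2, hz, hz, RatFunc.intDegree_polynomial]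
        omega
    · rw [hdet _ (dm_unit m)]
      exact hUI _ (OInf F).one_mem
  · have hPi := (hS P.1 P.2).2
    show GI (IP P.1) ((1 : Matrix (Fin 3) (Fin 3) (RatFunc F)) *
      γ.map (algebraMap F[X] (RatFunc F)) * (1 : Matrix (Fin 3) (Fin 3) (RatFunc F))⁻¹)
    refine ⟨?_, ?_⟩
    · rw [inv_one, one_mul, mul_one]
      exact fun i j => poly_mem hPi _
    · rw [hdet _ (by rw [det_one]; exact isUnit_one)]
      refine hUI _ ?_
      have := poly_mem (F := F) hPi 1
      rwa [map_one] at this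

theorem card_adj [Finite F] (P : F[X]) (hP : P.Monic) :
    Finite (AdjoinRoot P) ∧ Nat.card (AdjoinRoot P) = Nat.card F ^ P.natDegree := by
  have hf : Module.Finite F (AdjoinRoot P) := (AdjoinRoot.powerBasis' hP).finite
  have h1 : Finite (AdjoinRoot P) := Module.finite_of_finite F
  refine ⟨h1, ?_⟩
  rw [Module.natCard_eq_pow_finrank (K := F), (AdjoinRoot.powerBasis' hP).finrank,
    AdjoinRoot.powerBasis'_dim]

end Pool.AVS.WUW
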